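import Mathlib

set_option autoImplicit false

namespace Pool.Agent.H86Z.Lion

open Filter Topology

/-- A countable separating family of real functions. -/
structure Fam (P ι : Type) where
  ψ : ι → P → ℝ
  e : ι → ℕ
  inj : Function.Injective e
  sep : ∀ p q, (∀ i, ψ i p = ψ i q) → p = q

variable {P ι : Type}

/-- The carrier with the new metric. -/
def Fam.M (_F : Fam P ι) : Type := P

noncomputable def Fam.dd (F : Fam P ι) (p q : P) : ℝ :=
  ⨆ i, min |F.ψ i p - F.ψ i q| (1 / ((F.e i : ℝ) + 1))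

lemma Fam.bdd (F : Fam P ι) (p q : P) :
    BddAbove (Set.range fun i => min |F.ψ i p - F.ψ i q| (1 / ((F.e i : ℝ) + 1))) := by
  refine ⟨1, ?_⟩
  rintro _ ⟨i, rfl⟩
  refine (min_le_right _ _).trans ?_
  rw [div_le_one (by positivity)]
  have : (0 : ℝ) ≤ F.e i := Nat.cast_nonneg _
  linarith

lemma Fam.le_dd (F : Fam P ι) (p q : P) (i : ι) :
    min |F.ψ i p - F.ψ i q| (1 / ((F.e i : ℝ) + 1)) ≤ F.dd p q :=
  le_ciSup (F.bdd p q) i

lemma Fam.dd_le' (F : Fam P ι) (p q : P) {c : ℝ} (hc : 0 ≤ c)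
    (h : ∀ i, min |F.ψ i p - F.ψ i q| (1 / ((F.e i : ℝ) + 1)) ≤ c) : F.dd p q ≤ c :=
  Real.iSup_le h hc

lemma Fam.dd_nonneg (F : Fam P ι) (p q : P) : 0 ≤ F.dd p q :=
  Real.iSup_nonneg fun _ => le_min (abs_nonneg _) (by positivity)

noncomputable instance (F : Fam P ι) : MetricSpace F.M where
  dist p q := F.dd p q
  dist_self p := by
    refine le_antisymm (F.dd_le' p p le_rfl fun i => ?_) (F.dd_nonneg p p)
    simp
  dist_comm p q := by
    show F.dd p q = F.dd q p
    unfold Fam.dd
    simp only [abs_sub_comm (F.ψ _ p)]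
  dist_triangle p q r := by
    refine F.dd_le' p r (add_nonneg (F.dd_nonneg _ _) (F.dd_nonneg _ _)) fun i => ?_
    have h1 := F.le_dd p q i
    have h2 := F.le_dd q r i
    have h3 := abs_sub_le (F.ψ i p) (F.ψ i q) (F.ψ i r)
    have h4 : (0 : ℝ) < 1 / ((F.e i : ℝ) + 1) := by positivity
    have h5 := abs_nonneg (F.ψ i p - F.ψ i q)
    have h6 := abs_nonneg (F.ψ i q - F.ψ i r)
    show _ ≤ F.dd p q + F.dd q r
    rcases min_cases |F.ψ i p - F.ψ i q| (1 / ((F.e i : ℝ) + 1)) with h | h <;>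
      rcases min_cases |F.ψ i q - F.ψ i r| (1 / ((F.e i : ℝ) + 1)) with h' | h' <;>
      rcases min_cases |F.ψ i p - F.ψ i r| (1 / ((F.e i : ℝ) + 1)) with h'' | h'' <;>
      linarith [h.1, h'.1, h''.1, h.2, h'.2, h''.2]
  eq_of_dist_eq_zero := by
    intro p q h
    refine F.sep p q fun i => ?_
    have h1 := F.le_dd p q i
    have h0 : F.dd p q = 0 := h
    have h4 : (0 : ℝ) < 1 / ((F.e i : ℝ) + 1) := by positivity
    rw [h0] at h1
    rcases min_cases |F.ψ i p - F.ψ i q| (1 / ((F.e i : ℝ) + 1)) with h | h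
    · have : |F.ψ i p - F.ψ i q| = 0 := le_antisymm (by linarith [h.1]) (abs_nonneg _)
      exact sub_eq_zero.1 (abs_eq_zero.1 this)
    · linarith [h.1]

lemma Fam.dist_le (F : Fam P ι) (p q : F.M) {c : ℝ} (hc : 0 ≤ c)
    (h : ∀ i, |F.ψ i p - F.ψ i q| ≤ c) : dist p q ≤ c :=
  F.dd_le' p q hc fun i => (min_le_left _ _).trans (h i)

lemma Fam.compact (F : Fam P ι) [TopologicalSpace P] [CompactSpace P]
    (hc : ∀ i, Continuous (F.ψ i)) : CompactSpace F.M := by
  have hid : Continuous (fun p : P => (show F.M from p)) := by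
    rw [continuous_iff_continuousAt]
    intro p
    rw [ContinuousAt, Metric.tendsto_nhds]
    intro ε hε
    obtain ⟨N, hN⟩ := exists_nat_one_div_lt hε
    have hfin : {i | F.e i < N}.Finite :=
      Set.Finite.preimage (s := Set.Iio N) F.inj.injOn (Set.finite_Iio N)
    have hev : ∀ᶠ q in 𝓝 p, ∀ i ∈ {i | F.e i < N}, |F.ψ i q - F.ψ i p| < ε / 2 := by
      rw [eventually_all_finite hfin]
      intro i _
      have := (hc i).continuousAt (x := p)
      rw [ContinuousAt, Metric.tendsto_nhds] at this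
      exact this (ε / 2) (by linarith)
    filter_upwards [hev] with q hq
    have : F.dd q p ≤ max (ε / 2) (1 / ((N : ℝ) + 1)) := by
      refine F.dd_le' q p (le_max_of_le_left (by linarith)) fun i => ?_
      by_cases hi : F.e i < N
      · exact (min_le_left _ _).trans (le_max_of_le_left (hq i hi).le)
      · refine (min_le_right _ _).trans (le_max_of_le_right ?_)
        have : (N : ℝ) ≤ F.e i := by exact_mod_cast not_lt.1 hi
        exact one_div_le_one_div_of_le (by positivity) (by linarith)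
    exact lt_of_le_of_lt this (max_lt (by linarith) hN)
  have : IsCompact (Set.range fun p : P => (show F.M from p)) := isCompact_range hid
  refine ⟨?_⟩
  convert this
  exact (Set.range_eq_univ.2 fun p => ⟨p, rfl⟩).symm

/-- local to global -/
lemma l2g {g B : ℝ → ℝ} {a ε : ℝ} (hε : 0 < ε)
    (h : ∀ s t, a ≤ s → s ≤ t → t - s < ε → |g t - g s| ≤ B t - B s) :
    ∀ s t, a ≤ s → s ≤ t → |g t - g s| ≤ B t - B s := by
  have key : ∀ n : ℕ, ∀ s t, a ≤ s → s ≤ t → t - s ≤ n * (ε / 2) → |g t - g s| ≤ B t - B s := by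
    intro n
    induction n with
    | zero => intro s t h1 h2 h3; exact h s t h1 h2 (by simp at h3; linarith)
    | succ n ih =>
      intro s t h1 h2 h3
      by_cases h4 : t - s < ε
      · exact h s t h1 h2 h4
      · have h5 := h s (s + ε / 2) h1 (by linarith) (by linarith)
        have h6 := ih (s + ε / 2) t (by linarith) (by linarith) (by push_cast at h3; linarith)
        have h7 := abs_sub_le (g t) (g (s + ε / 2)) (g s)
        linarith
  intro s t h1 h2
  obtain ⟨n, hn⟩ := exists_nat_ge ((t - s) / (ε / 2))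
  exact key n s t h1 h2 (by rwa [div_le_iff₀ (by linarith)] at hn)

/-- speed-one paths on the half line -/
def Lip {M : Type} [MetricSpace M] (p : ℝ → M) : Prop :=
  ∀ s t, 0 ≤ s → s ≤ t → dist (p t) (p s) ≤ t - s

lemma Fam.coord (F : Fam P ι) {p : ℝ → F.M} (hp : Lip p) (i : ι) :
    ∀ s t, 0 ≤ s → s ≤ t → |F.ψ i (p t) - F.ψ i (p s)| ≤ t - s := by
  refine l2g (B := fun t => t) (ε := 1 / ((F.e i : ℝ) + 1)) (by positivity) ?_
  intro s t h1 h2 h3
  have h4 := F.le_dd (p t) (p s) i
  have h5 : F.dd (p t) (p s) ≤ t - s := hp s t h1 h2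
  rcases min_cases |F.ψ i (p t) - F.ψ i (p s)| (1 / ((F.e i : ℝ) + 1)) with h | h <;>
    linarith [h.1]

section glue
variable {M : Type} [MetricSpace M]

open Classical in
/-- follow `p` up to time `a`, then `q` (run from its time `0`). -/
noncomputable def glue (p : ℝ → M) (a : ℝ) (q : ℝ → M) : ℝ → M :=
  fun t => if t ≤ a then p t else q (t - a)

omit [MetricSpace M] in
lemma glue_le {p q : ℝ → M} {a t : ℝ} (h : t ≤ a) : glue p a q t = p t := by
  simp [glue, h]

omit [MetricSpace M] in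
lemma glue_ge {p q : ℝ → M} {a t : ℝ} (h0 : q 0 = p a) (h : a ≤ t) : glue p a q t = q (t - a) := by
  by_cases h' : t ≤ a
  · have : t = a := le_antisymm h' h
    subst this
    simp [glue, h0]
  · simp [glue, h']

lemma glue_lip {p q : ℝ → M} {a : ℝ} (hp : Lip p) (hq : Lip q) (h0 : q 0 = p a) :
    Lip (glue p a q) := by
  intro s t hs hst
  rcases le_total t a with h | h
  · rw [glue_le h, glue_le (hst.trans h)]; exact hp s t hs hst
  · rcases le_total s a with h' | h'
    · rw [glue_ge h0 h, glue_le h']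
      have h1 := hq 0 (t - a) le_rfl (by linarith)
      have h2 := hp s a hs h'
      rw [h0] at h1
      have := dist_triangle (q (t - a)) (p a) (p s)
      linarith
    · rw [glue_ge h0 h, glue_ge h0 h']
      have := hq (s - a) (t - a) (by linarith) (by linarith)
      linarith

/-- limit of a coherent sequence of paths -/
lemma exists_limit [CompactSpace M] (f : ℕ → ℝ → M) (τ : ℕ → ℝ) (hf : ∀ n, Lip (f n))
    (hτ : Monotone τ) (hc : ∀ n s, s ≤ τ n → f (n + 1) s = f n s) :
    ∃ g : ℝ → M, Lip g ∧ ∀ n s, s ≤ τ n → g s = f n s := by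
  have hlim : ∀ t, ∃ x : M, Tendsto (fun n => f n t) (hyperfilter ℕ : Filter ℕ) (𝓝 x) := by
    intro t
    obtain ⟨x, -, hx⟩ := isCompact_univ.ultrafilter_le_nhds
      ((hyperfilter ℕ).map fun n => f n t) (by simp)
    exact ⟨x, hx⟩
  choose g hg using hlim
  have hc' : ∀ n m, n ≤ m → ∀ s, s ≤ τ n → f m s = f n s := by
    intro n m hnm s hs
    induction m, hnm using Nat.le_induction with
    | base => rfl
    | succ m hm ih => rw [hc m s (hs.trans (hτ hm)), ih]
  refine ⟨g, ?_, ?_⟩
  · intro s t hs hst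
    exact le_of_tendsto' ((hg t).dist (hg s)) fun n => hf n s t hs hst
  · intro n s hs
    have h1 : Tendsto (fun m => f m s) (hyperfilter ℕ : Filter ℕ) (𝓝 (f n s)) := by
      refine Tendsto.mono_left ?_ Nat.hyperfilter_le_atTop
      refine tendsto_const_nhds.congr' ?_
      filter_upwards [eventually_ge_atTop n] with m hm
      exact (hc' n m hm s hs).symm
    exact tendsto_nhds_unique (hg s) h1

/-- a non-anticipating strategy, for paths on the half line -/
structure Strat (x₀ y₀ : M) (G : (ℝ → M) → (ℝ → M)) : Prop where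
  lip : ∀ p, Lip p → p 0 = x₀ → Lip (G p) ∧ G p 0 = y₀
  na : ∀ p p', Lip p → p 0 = x₀ → Lip p' → p' 0 = x₀ → ∀ t,
    (∀ s, 0 ≤ s → s ≤ t → p s = p' s) → ∀ s, 0 ≤ s → s ≤ t → G p s = G p' s

end glue

end Pool.Agent.H86Z.Lion
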