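import Pool.Agent.H86Z.Lion.A

set_option autoImplicit false

namespace Pool.Agent.H86Z.Lion

open Filter Topology

/-- clamp -/
def cl (a b x : ℝ) : ℝ := max a (min x b)

lemma cl_lip (a b x x' : ℝ) : |cl a b x - cl a b x'| ≤ |x - x'| := by
  unfold cl
  refine (abs_max_sub_max_le_max _ _ _ _).trans ?_
  simp only [sub_self, abs_zero]
  refine max_le (abs_nonneg _) ?_
  refine (abs_min_sub_min_le_max _ _ _ _).trans ?_
  simp

lemma cl_cont (a b : ℝ) : Continuous (cl a b) := by unfold cl; fun_prop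

lemma cl_of_mem {a b x : ℝ} (h1 : a ≤ x) (h2 : x ≤ b) : cl a b x = x := by
  unfold cl; rw [min_eq_left h2, max_eq_right h1]

lemma cl_of_le {a b x : ℝ} (h1 : x ≤ a) : cl a b x = a := by
  unfold cl; exact max_eq_left ((min_le_left _ _).trans h1)

lemma cl_of_ge {a b x : ℝ} (h : a ≤ b) (h1 : b ≤ x) : cl a b x = b := by
  unfold cl; rw [min_eq_right h1, max_eq_right h]

lemma le_cl (a b x : ℝ) : a ≤ cl a b x := le_max_left _ _

lemma cl_le {a b : ℝ} (h : a ≤ b) (x : ℝ) : cl a b x ≤ b := max_le h (min_le_right _ _)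

lemma cl_le_max (a b x : ℝ) : cl a b x ≤ max a x := max_le_max le_rfl (min_le_left _ _)

/-- truncated reciprocal -/
noncomputable def tr (n : ℕ) (v : ℝ) : ℝ := 1 / max v (1 / ((n : ℝ) + 1))

lemma tr_cont (n : ℕ) : Continuous (tr n) := by
  unfold tr
  refine Continuous.div continuous_const (by fun_prop) fun v => ?_
  exact ne_of_gt (lt_max_of_lt_right (by positivity))

lemma tr_eq_min (n : ℕ) {v : ℝ} (hv : 0 < v) : tr n v = min (1 / v) ((n : ℝ) + 1) := by
  unfold tr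
  have hn : (0 : ℝ) < (n : ℝ) + 1 := by positivity
  rcases le_total v (1 / ((n : ℝ) + 1)) with h | h
  · rw [max_eq_right h, one_div_one_div, min_eq_right]
    rw [le_div_iff₀ hn] at h
    rw [le_div_iff₀ hv]; linarith
  · rw [max_eq_left h, min_eq_left]
    rw [div_le_iff₀ hn] at h
    rw [div_le_iff₀ hv]; linarith

lemma tr_zero (n : ℕ) : tr n 0 = (n : ℝ) + 1 := by
  unfold tr
  rw [max_eq_right (by positivity), one_div_one_div]

lemma W_lip {v v' : ℝ} (h0 : 0 ≤ v) (h1 : v ≤ 1) (h0' : 0 ≤ v') (h1' : v' ≤ 1) :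
    |1 / (2 - v ^ 2) - 1 / (2 - v' ^ 2)| ≤ 2 * |v - v'| := by
  have ha : 1 ≤ 2 - v ^ 2 := by nlinarith
  have hb : 1 ≤ 2 - v' ^ 2 := by nlinarith
  have : 1 / (2 - v ^ 2) - 1 / (2 - v' ^ 2) = (v - v') * ((v + v') / ((2 - v ^ 2) * (2 - v' ^ 2))) := by
    field_simp; ring
  rw [this, abs_mul, mul_comm]
  refine mul_le_mul_of_nonneg_right ?_ (abs_nonneg _)
  rw [abs_of_nonneg (by positivity), div_le_iff₀ (by positivity)]
  nlinarith

variable {I : Type}

abbrev PP (Y : Set (I → ℝ)) : Type := Y × Set.Icc (0 : ℝ) 1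

abbrev Idx (I : Type) : Type := (I × ℕ × ℚ) ⊕ I ⊕ ℕ ⊕ Unit

noncomputable def ψ (Y : Set (I → ℝ)) : Idx I → PP Y → ℝ
  | .inl (i, n, a), p =>
      cl 0 (1 / ((n : ℝ) + 1)) (p.1.1 i - a) * (1 / (2 - p.2.1 ^ 2)) / (1 + 2 * (1 / ((n : ℝ) + 1)))
  | .inr (.inl i), p => p.1.1 i / 2
  | .inr (.inr (.inl n)), p => tr n p.2.1
  | .inr (.inr (.inr _)), p => p.2.1

noncomputable def fam [Countable I] (Y : Set (I → ℝ)) : Fam (PP Y) (Idx I) where
  ψ := ψ Y
  e := (exists_injective_nat (Idx I)).choose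
  inj := (exists_injective_nat (Idx I)).choose_spec
  sep := by
    intro p q h
    refine Prod.ext (Subtype.ext (funext fun i => ?_)) (Subtype.ext (h (.inr (.inr (.inr ())))))
    have := h (.inr (.inl i))
    simp only [ψ] at this
    linarith

lemma ψ_cont (Y : Set (I → ℝ)) (j : Idx I) : Continuous (ψ Y j) := by
  have hc : ∀ i, Continuous fun p : PP Y => p.1.1 i := fun i =>
    (continuous_apply i).comp (continuous_subtype_val.comp continuous_fst)
  rcases j with ⟨i, n, a⟩ | i | n | u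
  · show Continuous fun p : PP Y => cl 0 (1 / ((n : ℝ) + 1)) (p.1.1 i - a) * (1 / (2 - p.2.1 ^ 2)) /
      (1 + 2 * (1 / ((n : ℝ) + 1)))
    refine Continuous.div_const (Continuous.mul ((cl_cont _ _).comp ((hc i).sub continuous_const)) ?_) _
    refine Continuous.div continuous_const (by fun_prop) fun p => ?_
    have := p.2.2.1
    have := p.2.2.2
    nlinarith
  · show Continuous fun p : PP Y => p.1.1 i / 2
    exact (hc i).div_const _
  · show Continuous fun p : PP Y => tr n p.2.1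
    exact (tr_cont n).comp (by fun_prop)
  · show Continuous fun p : PP Y => p.2.1
    fun_prop

/-- the warped space -/
abbrev MM [Countable I] (Y : Set (I → ℝ)) : Type := (fam Y).M

lemma MM_compact [Countable I] {Y : Set (I → ℝ)} (hY : IsCompact Y) : CompactSpace (MM Y) := by
  have : CompactSpace Y := isCompact_iff_compactSpace.1 hY
  exact (fam Y).compact (ψ_cont Y)

variable [Countable I] {Y : Set (I → ℝ)}

/-- horizontal coordinate -/
def yy (p : MM Y) : Y := (show PP Y from p).1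
/-- vertical coordinate -/
def vv (p : MM Y) : ℝ := (show PP Y from p).2.1
/-- depth -/
noncomputable def dep (p : MM Y) : ℝ := 1 / vv p

lemma vv_nonneg (p : MM Y) : 0 ≤ vv p := (show PP Y from p).2.2.1
lemma vv_le (p : MM Y) : vv p ≤ 1 := (show PP Y from p).2.2.2

lemma one_le_dep {p : MM Y} (h : 0 < vv p) : 1 ≤ dep p := by
  unfold dep; rw [le_div_iff₀ h]; linarith [vv_le p]

noncomputable def mk (y : Y) (ρ : ℝ) : MM Y :=
  (show PP Y from (y, ⟨1 / max ρ 1, by positivity, by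
    rw [div_le_one (by positivity)]; exact le_max_right _ _⟩))

lemma yy_mk (y : Y) (ρ : ℝ) : yy (mk y ρ) = y := rfl
lemma vv_mk_pos (y : Y) (ρ : ℝ) : 0 < vv (mk y ρ) := by
  show 0 < 1 / max ρ 1
  positivity
lemma dep_mk (y : Y) {ρ : ℝ} (h : 1 ≤ ρ) : dep (mk y ρ) = ρ := by
  show 1 / (1 / max ρ 1) = ρ
  rw [one_div_one_div, max_eq_left h]

lemma mk_eq {p : MM Y} (h : 0 < vv p) : mk (yy p) (dep p) = p := by
  refine Prod.ext rfl (Subtype.ext ?_)
  show 1 / max (dep p) 1 = vv p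
  rw [max_eq_left (one_le_dep h)]
  unfold dep
  rw [one_div_one_div]

/-- horizontal speed at depth `ρ` -/
noncomputable def sp (ρ : ℝ) : ℝ := 2 - 1 / ρ ^ 2

lemma sp_dep (p : MM Y) : sp (dep p) = 2 - vv p ^ 2 := by
  unfold sp dep; simp

lemma one_le_sp {ρ : ℝ} (h : 1 ≤ ρ) : 1 ≤ sp ρ := by
  unfold sp
  have : 1 / ρ ^ 2 ≤ 1 := by rw [div_le_one (by positivity)]; nlinarith
  linarith

lemma sp_le (ρ : ℝ) : sp ρ ≤ 2 := by
  unfold sp
  have : 0 ≤ 1 / ρ ^ 2 := by positivity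
  linarith

lemma sp_mono {a b : ℝ} (ha : 0 < a) (h : a ≤ b) : sp a ≤ sp b := by
  unfold sp
  have : 1 / b ^ 2 ≤ 1 / a ^ 2 := one_div_le_one_div_of_le (by positivity) (by nlinarith)
  linarith

lemma dist_bound_aux {p q : MM Y} (hp : 0 < vv p) (hq : 0 < vv q) (hpq : dep p ≤ dep q) {c : ℝ}
    (h1 : dep q - dep p ≤ c) (h2 : ∀ i, |(yy p).1 i - (yy q).1 i| ≤ sp (dep q) * c) :
    dist p q ≤ c := by
  have hc : 0 ≤ c := by linarith
  have hv : |vv p - vv q| ≤ c := by
    have e : vv p - vv q = (dep q - dep p) * (vv p * vv q) := by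
      unfold dep; field_simp
    rw [e, abs_of_nonneg (mul_nonneg (by linarith) (by positivity))]
    have : vv p * vv q ≤ 1 := by nlinarith [vv_le p, vv_le q]
    nlinarith
  refine (fam Y).dist_le p q hc fun j => ?_
  rcases j with ⟨i, n, a⟩ | i | n | u
  · show |cl 0 (1 / ((n : ℝ) + 1)) ((yy p).1 i - a) * (1 / (2 - vv p ^ 2)) / (1 + 2 * (1 / ((n : ℝ) + 1))) -
      cl 0 (1 / ((n : ℝ) + 1)) ((yy q).1 i - a) * (1 / (2 - vv q ^ 2)) / (1 + 2 * (1 / ((n : ℝ) + 1)))| ≤ c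
    set κ : ℝ := 1 / ((n : ℝ) + 1) with hκ
    have hκ0 : 0 < κ := by positivity
    set x := cl 0 κ ((yy p).1 i - a)
    set x' := cl 0 κ ((yy q).1 i - a)
    have hx : |x - x'| ≤ sp (dep q) * c := by
      refine (cl_lip _ _ _ _).trans ?_
      have := h2 i
      rwa [sub_sub_sub_cancel_right]
    have hx0 : 0 ≤ x := le_cl _ _ _
    have hx1 : x ≤ κ := cl_le hκ0.le _
    have hW := W_lip (vv_nonneg p) (vv_le p) (vv_nonneg q) (vv_le q)
    rw [sp_dep] at hx
    have hb : 1 ≤ 2 - vv q ^ 2 := by nlinarith [vv_nonneg q, vv_le q]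
    rw [← sub_div, abs_div, abs_of_pos (by positivity : 0 < 1 + 2 * κ), div_le_iff₀ (by positivity)]
    have e : x * (1 / (2 - vv p ^ 2)) - x' * (1 / (2 - vv q ^ 2)) =
        x * (1 / (2 - vv p ^ 2) - 1 / (2 - vv q ^ 2)) + (x - x') * (1 / (2 - vv q ^ 2)) := by ring
    rw [e]
    refine (abs_add_le _ _).trans ?_
    rw [abs_mul, abs_mul, abs_of_nonneg hx0, abs_of_pos (by positivity : 0 < 1 / (2 - vv q ^ 2))]
    have h3 : |x - x'| * (1 / (2 - vv q ^ 2)) ≤ c := by
      rw [mul_one_div, div_le_iff₀ (by positivity)]; linarith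
    have h4 : x * |1 / (2 - vv p ^ 2) - 1 / (2 - vv q ^ 2)| ≤ κ * (2 * c) :=
      mul_le_mul hx1 (by linarith) (abs_nonneg _) hκ0.le
    nlinarith
  · show |(yy p).1 i / 2 - (yy q).1 i / 2| ≤ c
    rw [← sub_div, abs_div, abs_of_pos (by norm_num : (0 : ℝ) < 2), div_le_iff₀ (by norm_num)]
    have := h2 i
    have := sp_le (dep q)
    nlinarith
  · show |tr n (vv p) - tr n (vv q)| ≤ c
    rw [tr_eq_min n hp, tr_eq_min n hq]
    refine (abs_min_sub_min_le_max _ _ _ _).trans ?_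
    simp only [sub_self, abs_zero]
    refine max_le ?_ hc
    show |dep p - dep q| ≤ c
    rw [abs_sub_comm, abs_of_nonneg (by linarith)]; exact h1
  · exact hv

lemma dist_bound {p q : MM Y} (hp : 0 < vv p) (hq : 0 < vv q) {c : ℝ}
    (h1 : |dep q - dep p| ≤ c)
    (h2 : ∀ i, |(yy p).1 i - (yy q).1 i| ≤ sp (max (dep p) (dep q)) * c) :
    dist p q ≤ c := by
  rcases le_total (dep p) (dep q) with h | h
  · rw [max_eq_right h] at h2
    exact dist_bound_aux hp hq h (by linarith [le_abs_self (dep q - dep p)]) h2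
  · rw [max_eq_left h] at h2
    rw [dist_comm]
    refine dist_bound_aux hq hp h (by linarith [neg_abs_le (dep q - dep p)]) fun i => ?_
    rw [abs_sub_comm]; exact h2 i

lemma vert_pos {f : ℝ → MM Y} (hf : Lip f) (h0 : 0 < vv (f 0)) {t : ℝ} (ht : 0 ≤ t) :
    0 < vv (f t) := by
  refine lt_of_le_of_ne (vv_nonneg _) fun h => ?_
  obtain ⟨n, hn⟩ := exists_nat_gt (dep (f 0) + t)
  have h1 := (fam Y).coord hf (.inr (.inr (.inl n))) 0 t le_rfl ht
  change |tr n (vv (f t)) - tr n (vv (f 0))| ≤ t - 0 at h1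
  rw [← h, tr_zero, tr_eq_min n h0] at h1
  have h2 : min (1 / vv (f 0)) ((n : ℝ) + 1) ≤ dep (f 0) := min_le_left _ _
  linarith [le_abs_self ((n : ℝ) + 1 - min (1 / vv (f 0)) ((n : ℝ) + 1))]

lemma vert_lip {f : ℝ → MM Y} (hf : Lip f) (h0 : 0 < vv (f 0)) {s t : ℝ} (hs : 0 ≤ s)
    (hst : s ≤ t) : |dep (f t) - dep (f s)| ≤ t - s := by
  obtain ⟨n, hn⟩ := exists_nat_gt (max (dep (f s)) (dep (f t)))
  have h1 := (fam Y).coord hf (.inr (.inr (.inl n))) s t hs hst
  change |tr n (vv (f t)) - tr n (vv (f s))| ≤ t - s at h1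
  rw [tr_eq_min n (vert_pos hf h0 hs), tr_eq_min n (vert_pos hf h0 (hs.trans hst))] at h1
  have h2 : dep (f s) ≤ (n : ℝ) + 1 := by linarith [le_max_left (dep (f s)) (dep (f t))]
  have h3 : dep (f t) ≤ (n : ℝ) + 1 := by linarith [le_max_right (dep (f s)) (dep (f t))]
  unfold dep at h2 h3 ⊢
  rwa [min_eq_left h2, min_eq_left h3] at h1

/-- primitive of the speed along a full-speed descent from depth `R` -/
noncomputable def AA (R τ : ℝ) : ℝ := 2 * τ + 1 / (R + τ)

lemma AA_sub {R s t : ℝ} (hR : 1 ≤ R) (hs : 0 ≤ s) (hst : s ≤ t) :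
    AA R t - AA R s = (t - s) * (2 - 1 / ((R + s) * (R + t))) := by
  unfold AA
  have : 0 < R + s := by linarith
  have : 0 < R + t := by linarith
  field_simp; ring

lemma AA_ge {R s t : ℝ} (hR : 1 ≤ R) (hs : 0 ≤ s) (hst : s ≤ t) : t - s ≤ AA R t - AA R s := by
  rw [AA_sub hR hs hst]
  have h1 : 1 ≤ (R + s) * (R + t) := by nlinarith
  have : 1 / ((R + s) * (R + t)) ≤ 1 := by rw [div_le_one (by positivity)]; exact h1
  nlinarith

lemma AA_le_sp {R s t : ℝ} (hR : 1 ≤ R) (hs : 0 ≤ s) (hst : s ≤ t) :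
    AA R t - AA R s ≤ sp (R + t) * (t - s) := by
  rw [AA_sub hR hs hst, mul_comm]
  refine mul_le_mul_of_nonneg_right ?_ (by linarith)
  unfold sp
  have : 0 < R + s := by linarith
  have : 1 / (R + t) ^ 2 ≤ 1 / ((R + s) * (R + t)) :=
    one_div_le_one_div_of_le (by nlinarith) (by nlinarith)
  linarith

lemma AA_le {R s t : ℝ} (hR : 1 ≤ R) (hs : 0 ≤ s) (hst : s ≤ t) :
    AA R t - AA R s ≤ 2 * (t - s) :=
  (AA_le_sp hR hs hst).trans (mul_le_mul_of_nonneg_right (sp_le _) (by linarith))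

lemma horiz {f : ℝ → MM Y} (hf : Lip f) (h0 : 0 < vv (f 0)) {t₀ R : ℝ} (ht₀ : 0 ≤ t₀)
    (hR : dep (f t₀) ≤ R) (i : I) {s t : ℝ} (hs : t₀ ≤ s) (hst : s ≤ t) :
    |(yy (f t)).1 i - (yy (f s)).1 i| ≤ AA R (t - t₀) - AA R (s - t₀) := by
  have hR1 : 1 ≤ R := (one_le_dep (vert_pos hf h0 ht₀)).trans hR
  have key : ∀ n : ℕ, |(yy (f t)).1 i - (yy (f s)).1 i| ≤
      (AA R (t - t₀) + 9 * (1 / ((n : ℝ) + 1)) * t) - (AA R (s - t₀) + 9 * (1 / ((n : ℝ) + 1)) * s) := by
    intro n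
    set κ : ℝ := 1 / ((n : ℝ) + 1) with hκ
    have hκ0 : 0 < κ := by positivity
    have hκ1 : κ ≤ 1 := by
      rw [hκ, div_le_one (by positivity)]; linarith [(Nat.cast_nonneg n : (0 : ℝ) ≤ n)]
    refine l2g (g := fun t => (yy (f t)).1 i) (B := fun t => AA R (t - t₀) + 9 * κ * t) (a := t₀)
      (ε := κ / 4) (by positivity) ?_ s t hs hst
    intro s t hs hst hε
    have hs0 : 0 ≤ s := ht₀.trans hs
    set x := (yy (f s)).1 i
    set x' := (yy (f t)).1 i
    have h2 : |x' / 2 - x / 2| ≤ t - s := (fam Y).coord hf (.inr (.inl i)) s t hs0 hst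
    have h3 : |vv (f t) - vv (f s)| ≤ t - s := (fam Y).coord hf (.inr (.inr (.inr ()))) s t hs0 hst
    have h2' : |x' - x| ≤ 2 * (t - s) := by
      rw [← sub_div, abs_div, abs_of_pos (by norm_num : (0 : ℝ) < 2), div_le_iff₀ (by norm_num)] at h2
      linarith
    obtain ⟨a, ha1, ha2⟩ := exists_rat_btwn (show max x x' - κ < min x x' by
      rcases le_total x x' with h | h
      · rw [max_eq_right h, min_eq_left h]; linarith [le_abs_self (x' - x)]
      · rw [max_eq_left h, min_eq_right h]; linarith [neg_abs_le (x' - x)])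
    have h4 := (fam Y).coord hf (.inl (i, n, a)) s t hs0 hst
    change |cl 0 κ (x' - a) * (1 / (2 - vv (f t) ^ 2)) / (1 + 2 * κ) -
      cl 0 κ (x - a) * (1 / (2 - vv (f s) ^ 2)) / (1 + 2 * κ)| ≤ t - s at h4
    have hxa0 : 0 ≤ x - a := by linarith [min_le_left x x']
    have hxa1 : x - a ≤ κ := by linarith [le_max_left x x']
    rw [cl_of_mem (by linarith [min_le_right x x']) (by linarith [le_max_right x x']),
      cl_of_mem hxa0 hxa1, ← sub_div, abs_div, abs_of_pos (by positivity : 0 < 1 + 2 * κ),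
      div_le_iff₀ (by positivity)] at h4
    have hW := W_lip (vv_nonneg (f t)) (vv_le (f t)) (vv_nonneg (f s)) (vv_le (f s))
    have hb : 1 ≤ 2 - vv (f t) ^ 2 := by nlinarith [vv_nonneg (f t), vv_le (f t)]
    have e : (x' - x) * (1 / (2 - vv (f t) ^ 2)) =
        ((x' - a) * (1 / (2 - vv (f t) ^ 2)) - (x - a) * (1 / (2 - vv (f s) ^ 2))) -
        (x - a) * (1 / (2 - vv (f t) ^ 2) - 1 / (2 - vv (f s) ^ 2)) := by ring
    have h5 : |x' - x| * (1 / (2 - vv (f t) ^ 2)) ≤ (1 + 4 * κ) * (t - s) := by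
      rw [← abs_of_pos (by positivity : 0 < 1 / (2 - vv (f t) ^ 2)), ← abs_mul, e]
      refine (abs_sub _ _).trans ?_
      rw [abs_mul (x - a), abs_of_nonneg hxa0]
      have : (x - a) * |1 / (2 - vv (f t) ^ 2) - 1 / (2 - vv (f s) ^ 2)| ≤ κ * (2 * (t - s)) :=
        mul_le_mul hxa1 (by linarith) (abs_nonneg _) hκ0.le
      nlinarith
    rw [mul_one_div, div_le_iff₀ (by positivity), ← sp_dep] at h5
    have hd : dep (f t) ≤ R + (t - t₀) := by
      have := vert_lip hf h0 ht₀ (hs.trans hst)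
      linarith [le_abs_self (dep (f t) - dep (f t₀))]
    have hd1 : 1 ≤ dep (f t) := one_le_dep (vert_pos hf h0 (hs0.trans hst))
    have h6 : sp (dep (f t)) ≤ sp (R + (t - t₀)) := sp_mono (by linarith) hd
    have h7 := AA_sub (R := R) (s := s - t₀) (t := t - t₀) hR1 (by linarith) (by linarith)
    have h8 : sp (R + (t - t₀)) ≤ 2 - 1 / ((R + (s - t₀)) * (R + (t - t₀))) + κ := by
      unfold sp
      set u := R + (s - t₀)
      set w := R + (t - t₀)
      have hu : 1 ≤ u := by simp only [u]; linarith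
      have hw : u ≤ w := by simp only [u, w]; linarith
      have e2 : 1 / (u * w) - 1 / w ^ 2 = (w - u) / (u * w ^ 2) := by
        have : 0 < u := by linarith
        have : 0 < w := by linarith
        field_simp
      have h9 : (w - u) / (u * w ^ 2) ≤ w - u := by
        refine div_le_self (by linarith) ?_
        nlinarith
      have h10 : w - u = t - s := by simp only [u, w]; ring
      linarith
    have h9 := sp_le (dep (f t))
    have h10 : 0 ≤ t - s := by linarith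
    show |x' - x| ≤ AA R (t - t₀) + 9 * κ * t - (AA R (s - t₀) + 9 * κ * s)
    have h11 : (t - t₀ - (s - t₀)) = t - s := by ring
    rw [h11] at h7
    have h12 : (t - s) * sp (dep (f t)) ≤ (t - s) * (2 - 1 / ((R + (s - t₀)) * (R + (t - t₀))) + κ) :=
      mul_le_mul_of_nonneg_left (h6.trans h8) h10
    have h13 : 4 * κ * (t - s) * sp (dep (f t)) ≤ 4 * κ * (t - s) * 2 :=
      mul_le_mul_of_nonneg_left h9 (by positivity)
    nlinarith
  have hlim : Tendsto (fun n : ℕ => (AA R (t - t₀) + 9 * (1 / ((n : ℝ) + 1)) * t) -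
      (AA R (s - t₀) + 9 * (1 / ((n : ℝ) + 1)) * s)) atTop
      (𝓝 ((AA R (t - t₀) + 9 * 0 * t) - (AA R (s - t₀) + 9 * 0 * s))) := by
    have h := tendsto_one_div_add_atTop_nhds_zero_nat (𝕜 := ℝ)
    exact (tendsto_const_nhds.add ((tendsto_const_nhds.mul h).mul tendsto_const_nhds)).sub
      (tendsto_const_nhds.add ((tendsto_const_nhds.mul h).mul tendsto_const_nhds))
  have := ge_of_tendsto' hlim key
  simpa using this

end Pool.Agent.H86Z.Lion
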