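import Pool.Agent.H86Z.Lion.B

set_option autoImplicit false

namespace Pool.Agent.H86Z.Lion

open Filter Topology

variable {I : Type} {Y : Set (I → ℝ)}

/-- horizontal unit-speed paths -/
def YLip (γ : ℝ → Y) : Prop := ∀ i, Lip fun t => (γ t).1 i

/-- `q` can be reached from `p` along a horizontal path of length at most `L`. -/
def Reach (p q : Y) (L : ℝ) : Prop := 0 ≤ L ∧ ∃ γ : ℝ → Y, YLip γ ∧ γ 0 = p ∧ γ L = q

lemma YLip.le {γ : ℝ → Y} (h : YLip γ) (i : I) {s t : ℝ} (hs : 0 ≤ s) (hst : s ≤ t) :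
    |(γ t).1 i - (γ s).1 i| ≤ t - s := h i s t hs hst

lemma Reach.mono {p q : Y} {L L' : ℝ} (h : Reach p q L) (hL : L ≤ L') : Reach p q L' := by
  obtain ⟨h0, γ, h1, h2, h3⟩ := h
  refine ⟨h0.trans hL, fun t => γ (min t L), fun i s t hs hst => ?_, ?_, ?_⟩
  · have := h1.le i (le_min hs h0) (min_le_min_right L hst)
    refine this.trans ?_
    rcases le_total t L with h | h
    · rw [min_eq_left h, min_eq_left (hst.trans h)]
    · rw [min_eq_right h]
      rcases le_total s L with h' | h'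
      · rw [min_eq_left h']; linarith
      · rw [min_eq_right h']; linarith
  · simp only [min_eq_left h0, h2]
  · simp only [min_eq_right hL, h3]

lemma Reach.trans {p q r : Y} {L L' : ℝ} (h : Reach p q L) (h' : Reach q r L') :
    Reach p r (L + L') := by
  obtain ⟨h0, γ, h1, h2, h3⟩ := h
  obtain ⟨h0', γ', h1', h2', h3'⟩ := h'
  have e : γ' 0 = γ L := by rw [h2', h3]
  refine ⟨by linarith, glue γ L γ', fun i => ?_, ?_, ?_⟩
  · have := glue_lip (a := L) (h1 i) (h1' i) (by simp only [e])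
    convert this using 1
    funext t
    unfold glue
    split_ifs <;> rfl
  · rw [glue_le h0, h2]
  · rw [glue_ge e (by linarith), add_sub_cancel_left, h3']

lemma Reach.close {p q : Y} {L : ℝ} (h : Reach p q L) (i : I) : |q.1 i - p.1 i| ≤ L := by
  obtain ⟨h0, γ, h1, h2, h3⟩ := h
  have := h1.le i le_rfl h0
  rwa [h2, h3, sub_zero] at this

/-- an arc parametrised by length -/
def Arc (c : ℝ → Y) : Prop := ∀ i u u', |(c u).1 i - (c u').1 i| ≤ |u - u'|

lemma Arc.reach_up {c : ℝ → Y} (hc : Arc c) {a b : ℝ} (h : a ≤ b) : Reach (c a) (c b) (b - a) := by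
  refine ⟨by linarith, fun t => c (a + t), fun i s t hs hst => ?_, by simp, by simp⟩
  have := hc i (a + t) (a + s)
  rw [add_sub_add_left_eq_sub, abs_of_nonneg (sub_nonneg.2 hst)] at this
  exact this

lemma Arc.reach_down {c : ℝ → Y} (hc : Arc c) {a b : ℝ} (h : b ≤ a) :
    Reach (c a) (c b) (a - b) := by
  refine ⟨by linarith, fun t => c (a - t), fun i s t hs hst => ?_, by simp, by simp⟩
  have := hc i (a - t) (a - s)
  rw [sub_sub_sub_cancel_left, abs_sub_comm s t, abs_of_nonneg (sub_nonneg.2 hst)] at this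
  exact this

variable [Countable I]

lemma AA_surj {R : ℝ} (hR : 1 ≤ R) {σ : ℝ} (hσ : 0 ≤ σ) : ∃ τ, 0 ≤ τ ∧ AA R τ - AA R 0 = σ := by
  have hc : ContinuousOn (fun τ => AA R τ - AA R 0) (Set.Icc 0 σ) := by
    unfold AA
    refine ContinuousOn.sub (ContinuousOn.add (by fun_prop) ?_) continuousOn_const
    refine ContinuousOn.div continuousOn_const (by fun_prop) fun x hx => ?_
    have := hx.1
    linarith
  have := intermediate_value_Icc hσ hc (a := 0) (b := σ)
  obtain ⟨τ, h1, h2⟩ := this (show σ ∈ Set.Icc _ _ from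
    ⟨by simp [hσ], by have := AA_ge hR le_rfl hσ; simpa using this⟩)
  exact ⟨τ, h1.1, h2⟩

lemma trail {g : ℝ → MM Y} (hg : Lip g) (h0 : 0 < vv (g 0)) {t₀ R δ : ℝ} (ht₀ : 0 ≤ t₀)
    (hR : dep (g t₀) ≤ R) (hδ : 0 ≤ δ) :
    Reach (yy (g t₀)) (yy (g (t₀ + δ))) (AA R δ - AA R 0) := by
  have hR1 : 1 ≤ R := (one_le_dep (vert_pos hg h0 ht₀)).trans hR
  have h : ∀ σ : ℝ, ∃ τ, 0 ≤ τ ∧ (0 ≤ σ → AA R τ - AA R 0 = σ) := by
    intro σ
    by_cases hσ : 0 ≤ σ
    · obtain ⟨τ, h1, h2⟩ := AA_surj hR1 hσ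
      exact ⟨τ, h1, fun _ => h2⟩
    · exact ⟨0, le_rfl, fun h => absurd h hσ⟩
  choose τ hτ0 hτ using h
  have hinj : ∀ a b, 0 ≤ a → 0 ≤ b → AA R a = AA R b → a = b := by
    intro a b ha hb hab
    rcases le_total a b with h | h
    · have := AA_ge hR1 ha h; linarith
    · have := AA_ge hR1 hb h; linarith
  have hL : 0 ≤ AA R δ - AA R 0 := by have := AA_ge hR1 le_rfl hδ; linarith
  refine ⟨hL, fun σ => yy (g (t₀ + τ σ)), fun i s t hs hst => ?_, ?_, ?_⟩
  · have e1 := hτ s hs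
    have e2 := hτ t (hs.trans hst)
    show |(yy (g (t₀ + τ t))).1 i - (yy (g (t₀ + τ s))).1 i| ≤ t - s
    rcases le_total (τ s) (τ t) with h | h
    · have := horiz hg h0 ht₀ hR i (s := t₀ + τ s) (t := t₀ + τ t) (by linarith [hτ0 s]) (by linarith)
      rw [add_sub_cancel_left, add_sub_cancel_left] at this
      linarith
    · have := horiz hg h0 ht₀ hR i (s := t₀ + τ t) (t := t₀ + τ s) (by linarith [hτ0 t]) (by linarith)
      rw [add_sub_cancel_left, add_sub_cancel_left, abs_sub_comm] at this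
      linarith
  · have : τ 0 = 0 := hinj _ _ (hτ0 0) le_rfl (by have := hτ 0 le_rfl; linarith)
    simp only [this, add_zero]
  · have : τ (AA R δ - AA R 0) = δ := hinj _ _ (hτ0 _) hδ (by have := hτ _ hL; linarith)
    simp only [this]

lemma lip_mk {c : ℝ → Y} {ρ : ℝ → ℝ} (h1 : ∀ s, 0 ≤ s → 1 ≤ ρ s)
    (h2 : ∀ s t, 0 ≤ s → s ≤ t → |ρ t - ρ s| ≤ t - s)
    (h3 : ∀ i s t, 0 ≤ s → s ≤ t → |(c t).1 i - (c s).1 i| ≤ sp (max (ρ t) (ρ s)) * (t - s)) :
    Lip fun s => mk (c s) (ρ s) := by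
  intro s t hs hst
  refine dist_bound (vv_mk_pos _ _) (vv_mk_pos _ _) ?_ fun i => ?_
  · rw [dep_mk _ (h1 s hs), dep_mk _ (h1 t (hs.trans hst)), abs_sub_comm]; exact h2 s t hs hst
  · rw [dep_mk _ (h1 s hs), dep_mk _ (h1 t (hs.trans hst)), yy_mk, yy_mk]; exact h3 i s t hs hst

section chase
variable {x₀ y₀ : MM Y} {G : (ℝ → MM Y) → (ℝ → MM Y)}

lemma step (hG : Strat x₀ y₀ G) (hx : 0 < vv x₀) (hy : 0 < vv y₀) {f : ℝ → MM Y} (hf : Lip f)
    (hf0 : f 0 = x₀) {t L R δ : ℝ} (ht : 0 ≤ t) (hL : Reach (yy (f t)) (yy (G f t)) L)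
    (hR : dep (G f t) ≤ R) (hδ : 0 ≤ δ) {ρ σ : ℝ → ℝ} (hρ0 : ρ 0 = dep (f t)) (hσ0 : σ 0 = 0)
    (h1 : ∀ s, 0 ≤ s → 1 ≤ ρ s) (h2 : ∀ s t, 0 ≤ s → s ≤ t → |ρ t - ρ s| ≤ t - s)
    (h3 : ∀ s t, 0 ≤ s → s ≤ t → σ s ≤ σ t ∧ σ t - σ s ≤ sp (max (ρ t) (ρ s)) * (t - s)) :
    ∃ f' : ℝ → MM Y, Lip f' ∧ (∀ s, s ≤ t → f' s = f s) ∧ dep (f' (t + δ)) = ρ δ ∧
      G f' t = G f t ∧
      Reach (yy (f' (t + δ))) (yy (G f' (t + δ))) (max (L - σ δ) 0 + (AA R δ - AA R 0)) := by
  obtain ⟨hL0, γ, hγ, hγ0, hγL⟩ := hL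
  have hσ : ∀ s, 0 ≤ s → 0 ≤ σ s := fun s hs => by have := (h3 0 s le_rfl hs).1; linarith
  set q : ℝ → MM Y := fun s => mk (γ (min (σ s) L)) (ρ s) with hq
  have hql : Lip q := by
    refine lip_mk h1 h2 fun i s t hs hst => ?_
    obtain ⟨a, b⟩ := h3 s t hs hst
    refine (hγ.le i (le_min (hσ s hs) hL0) (min_le_min_right L a)).trans (le_trans ?_ b)
    rcases le_total (σ t) L with h | h
    · rw [min_eq_left h, min_eq_left (a.trans h)]
    · rw [min_eq_right h]
      rcases le_total (σ s) L with h' | h'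
      · rw [min_eq_left h']; linarith
      · rw [min_eq_right h']; linarith
  have hq0 : q 0 = f t := by
    simp only [hq, hσ0, min_eq_left hL0, hγ0, hρ0]
    exact mk_eq (vert_pos hf (hf0 ▸ hx) ht)
  have hl := glue_lip (a := t) hf hql hq0
  have hag : ∀ s, s ≤ t → glue f t q s = f s := fun s hs => glue_le hs
  have h0' : glue f t q 0 = x₀ := by rw [hag 0 ht, hf0]
  have hGt : G (glue f t q) t = G f t :=
    hG.na _ _ hl h0' hf hf0 t (fun s _ hs => hag s hs) t ht le_rfl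
  have hend : glue f t q (t + δ) = q δ := by rw [glue_ge hq0 (by linarith), add_sub_cancel_left]
  refine ⟨glue f t q, hl, hag, ?_, hGt, ?_⟩
  · rw [hend]; exact dep_mk _ (h1 δ hδ)
  · obtain ⟨hg, hg0⟩ := hG.lip _ hl h0'
    have hT := trail hg (hg0 ▸ hy) ht (R := R) (by rw [hGt]; exact hR) hδ
    refine Reach.trans ?_ hT
    rw [hend, hGt, ← hγL]
    show Reach (γ (min (σ δ) L)) (γ L) _
    have hm : 0 ≤ min (σ δ) L := le_min (hσ δ hδ) hL0
    refine Reach.mono (L := L - min (σ δ) L) ⟨by linarith [min_le_right (σ δ) L],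
      fun s => γ (min (σ δ) L + s), fun i s t hs hst => ?_, by simp, by simp⟩ ?_
    · have := hγ.le i (s := min (σ δ) L + s) (t := min (σ δ) L + t) (by linarith) (by linarith)
      rw [add_sub_add_left_eq_sub] at this
      exact this
    · rcases le_total (σ δ) L with h | h
      · rw [min_eq_left h]; exact le_max_left _ _
      · rw [min_eq_right h, sub_self]; exact le_max_right _ _

lemma phaseA (hG : Strat x₀ y₀ G) (hx : 0 < vv x₀) (hy : 0 < vv y₀) {f : ℝ → MM Y} (hf : Lip f)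
    (hf0 : f 0 = x₀) {t m ε δ : ℝ} (ht : 0 ≤ t) (hm : 1 ≤ m) (hl : dep (f t) = m + 1)
    (hM : dep (G f t) ≤ m) (hL : Reach (yy (f t)) (yy (G f t)) (1 / m - 1 / (m + 1) - ε))
    (hδ : 0 ≤ δ) (n : ℕ) :
    ∃ f' : ℝ → MM Y, Lip f' ∧ f' 0 = x₀ ∧ dep (f' (t + n * δ)) = m + n * δ + 1 ∧
      dep (G f' (t + n * δ)) ≤ m + n * δ ∧
      Reach (yy (f' (t + n * δ))) (yy (G f' (t + n * δ)))
        (max (1 / (m + n * δ) - 1 / (m + n * δ + 1) - ε) (2 * δ)) := by
  induction n with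
  | zero =>
    refine ⟨f, hf, hf0, by simpa using hl, by simpa using hM, ?_⟩
    simp only [Nat.cast_zero, zero_mul, add_zero]
    exact hL.mono (le_max_left _ _)
  | succ n ih =>
    obtain ⟨f', h1, h2, h3, h4, h5⟩ := ih
    have hn : (0 : ℝ) ≤ n * δ := by positivity
    set m' := m + n * δ with hm'
    have hm1 : 1 ≤ m' := by linarith
    obtain ⟨f'', k1, k2, k3, k4, k5⟩ := step hG hx hy h1 h2 (t := t + n * δ) (by linarith) h5 h4 hδ
      (ρ := fun s => m' + 1 + s) (σ := fun s => AA (m' + 1) s - AA (m' + 1) 0) (by simp [h3])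
      (by simp) (fun s hs => by linarith)
      (fun s t hs hst => by rw [add_sub_add_left_eq_sub, abs_of_nonneg (by linarith)])
      (fun s t hs hst => by
        have a := AA_ge (R := m' + 1) (by linarith) hs hst
        have b := AA_le_sp (R := m' + 1) (by linarith) hs hst
        refine ⟨by linarith, ?_⟩
        rw [max_eq_left (by linarith)]; linarith)
    have e : t + ((n + 1 : ℕ) : ℝ) * δ = t + n * δ + δ := by push_cast; ring
    have e' : m + ((n + 1 : ℕ) : ℝ) * δ = m' + δ := by push_cast; rw [hm']; ring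
    have hf0'' : f'' 0 = x₀ := by rw [k2 0 (by linarith), h2]
    rw [e, e']
    refine ⟨f'', k1, hf0'', by rw [k3]; ring, ?_, k5.mono ?_⟩
    · obtain ⟨hg, hg0⟩ := hG.lip _ k1 hf0''
      have := vert_lip hg (hg0 ▸ hy) (s := t + n * δ) (t := t + n * δ + δ) (by linarith) (by linarith)
      rw [k4] at this
      linarith [le_abs_self (dep (G f'' (t + n * δ + δ)) - dep (G f' (t + n * δ)))]
    · have hb := AA_le (R := m') hm1 le_rfl hδ
      have hd : (AA m' δ - AA m' 0) - (AA (m' + 1) δ - AA (m' + 1) 0) =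
          (1 / (m' + δ) - 1 / (m' + δ + 1)) - (1 / m' - 1 / (m' + 1)) := by
        unfold AA
        rw [show m' + 1 + δ = m' + δ + 1 by ring]; simp only [add_zero]; ring
      have hneg : (1 / (m' + δ) - 1 / (m' + δ + 1)) - (1 / m' - 1 / (m' + 1)) ≤ 0 := by
        have a : 1 / (m' + δ) - 1 / (m' + δ + 1) = 1 / ((m' + δ) * (m' + δ + 1)) := by
          have : 0 < m' + δ := by linarith
          field_simp; ring
        have b : 1 / m' - 1 / (m' + 1) = 1 / (m' * (m' + 1)) := by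
          have : 0 < m' := by linarith
          field_simp; ring
        rw [a, b, sub_nonpos]
        exact one_div_le_one_div_of_le (by nlinarith) (by nlinarith)
      rcases max_cases (max (1 / m' - 1 / (m' + 1) - ε) (2 * δ) - (AA (m' + 1) δ - AA (m' + 1) 0)) 0
        with h | h
      · rw [h.1]
        rcases max_cases (1 / m' - 1 / (m' + 1) - ε) (2 * δ) with h' | h'
        · rw [h'.1]; exact le_max_of_le_left (by linarith)
        · rw [h'.1]; exact le_max_of_le_right (by linarith)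
      · rw [h.1]; exact le_max_of_le_right (by linarith)

/-- invariant of the climbing phase -/
def Inv (x₀ : MM Y) (G : (ℝ → MM Y) → (ℝ → MM Y)) (R : ℝ) (x : (ℝ → MM Y) × ℝ) : Prop :=
  Lip x.1 ∧ x.1 0 = x₀ ∧ 0 ≤ x.2 ∧ dep (G x.1 x.2) < dep (x.1 x.2) ∧ dep (x.1 x.2) ≤ R ∧
    Reach (yy (x.1 x.2)) (yy (G x.1 x.2)) (1 / (8 * R ^ 3) * (dep (x.1 x.2) - dep (G x.1 x.2)) ^ 2)

lemma sp_slack {a b R : ℝ} (hb : 1 ≤ b) (hab : b ≤ a) (hR : a ≤ R) :
    2 * (a - b) / R ^ 3 ≤ sp a - sp b := by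
  unfold sp
  have hb0 : 0 < b := by linarith
  have ha0 : 0 < a := by linarith
  have hR0 : 0 < R := by linarith
  have e : 2 - 1 / a ^ 2 - (2 - 1 / b ^ 2) = (a - b) * (a + b) / (a ^ 2 * b ^ 2) := by
    field_simp; ring
  rw [e, div_le_div_iff₀ (by positivity) (by positivity)]
  have h1 : a ^ 2 * b ≤ R ^ 3 := by
    have : a ^ 2 ≤ R ^ 2 := by nlinarith
    have : b ≤ R := by linarith
    calc a ^ 2 * b ≤ R ^ 2 * R := mul_le_mul (by assumption) this hb0.le (by positivity)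
      _ = R ^ 3 := by ring
  have h2 : 2 * (a ^ 2 * b ^ 2) ≤ (a + b) * R ^ 3 := by
    calc 2 * (a ^ 2 * b ^ 2) = (2 * b) * (a ^ 2 * b) := by ring
      _ ≤ (a + b) * R ^ 3 := mul_le_mul (by linarith) h1 (by positivity) (by positivity)
  have h3 : 0 ≤ a - b := by linarith
  nlinarith [mul_le_mul_of_nonneg_left h2 h3]

lemma stepB (hG : Strat x₀ y₀ G) (hx : 0 < vv x₀) (hy : 0 < vv y₀) {R : ℝ}
    {x : (ℝ → MM Y) × ℝ} (h : Inv x₀ G R x) :
    ∃ x' : (ℝ → MM Y) × ℝ, Inv x₀ G R x' ∧ (∀ s, s ≤ x.2 → x'.1 s = x.1 s) ∧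
      x'.2 = x.2 + 1 / (8 * R ^ 3) * (dep (x.1 x.2) - dep (G x.1 x.2)) ^ 2 / 8 ∧
      dep (x'.1 x'.2) + x'.2 = dep (x.1 x.2) + x.2 := by
  obtain ⟨f, t⟩ := x
  obtain ⟨h1, h2, h3, h4, h5, h6⟩ := h
  simp only at h1 h2 h3 h4 h5 h6 ⊢
  obtain ⟨hg, hg0⟩ := hG.lip _ h1 h2
  have hm1 : 1 ≤ dep (G f t) := one_le_dep (vert_pos hg (hg0 ▸ hy) h3)
  set l := dep (f t) with hl
  set m := dep (G f t) with hm
  set K : ℝ := 1 / (8 * R ^ 3) with hK
  set η := l - m with hη
  have hη0 : 0 < η := by linarith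
  have hR1 : 1 ≤ R := by linarith
  have hηR : η ≤ R := by linarith
  have hK0 : 0 < K := by positivity
  have hKη : K * η ≤ 1 / 8 := by
    rw [hK, div_mul_eq_mul_div, one_mul, div_le_div_iff₀ (by positivity) (by norm_num)]
    have : R ≤ R ^ 3 := by nlinarith [mul_nonneg (sub_nonneg.2 hR1) (by positivity : 0 ≤ R * (R + 1))]
    linarith
  set δ := K * η ^ 2 / 8 with hδ
  have hδ0 : 0 < δ := by positivity
  have hδη : δ ≤ η / 64 := by rw [hδ]; nlinarith
  have hmin : ∀ s t : ℝ, s ≤ t → 0 ≤ min t δ - min s δ ∧ min t δ - min s δ ≤ t - s := by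
    intro s t hst
    refine ⟨sub_nonneg.2 (min_le_min_right δ hst), ?_⟩
    rcases le_total t δ with h | h
    · rw [min_eq_left h, min_eq_left (hst.trans h)]
    · rw [min_eq_right h]
      rcases le_total s δ with h' | h'
      · rw [min_eq_left h']; linarith
      · rw [min_eq_right h']; linarith
  have hsp1 : 1 ≤ sp (l - δ) := one_le_sp (by linarith)
  obtain ⟨f', k1, k2, k3, k4, k5⟩ := step hG hx hy h1 h2 h3 h6 (R := m) le_rfl hδ0.le
    (ρ := fun s => l - min s δ) (σ := fun s => sp (l - δ) * min s δ)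
    (by simp [min_eq_left hδ0.le, hl]) (by simp [min_eq_left hδ0.le])
    (fun s hs => by linarith [min_le_right s δ])
    (fun s t hs hst => by
      obtain ⟨a, b⟩ := hmin s t hst
      rw [sub_sub_sub_cancel_left, abs_sub_comm, abs_of_nonneg a]; exact b)
    (fun s t hs hst => by
      obtain ⟨a, b⟩ := hmin s t hst
      refine ⟨mul_le_mul_of_nonneg_left (by linarith) (by linarith), ?_⟩
      rw [← mul_sub]
      refine mul_le_mul ?_ b a (by
        have := one_le_sp (ρ := max (l - min t δ) (l - min s δ))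
          (le_max_of_le_left (by linarith [min_le_right t δ]))
        linarith)
      exact sp_mono (by linarith) (le_max_of_le_left (by linarith [min_le_right t δ])))
  simp only [min_self] at k3 k5
  have hf0' : f' 0 = x₀ := by rw [k2 0 h3, h2]
  obtain ⟨hg', hg0'⟩ := hG.lip _ k1 hf0'
  have hv := vert_lip hg' (hg0' ▸ hy) (s := t) (t := t + δ) h3 (by linarith)
  rw [k4, ← hm, add_sub_cancel_left] at hv
  set m' := dep (G f' (t + δ)) with hm'
  have hm'1 : m' ≤ m + δ := by linarith [le_abs_self (m' - m)]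
  refine ⟨(f', t + δ), ⟨k1, hf0', by simp only; linarith, ?_, ?_, ?_⟩, k2, rfl, ?_⟩
  · simp only [k3]; linarith
  · simp only [k3]; linarith
  · simp only [k3]
    refine k5.mono ?_
    have a := AA_le_sp (R := m) hm1 le_rfl hδ0.le
    have b := sp_slack (a := l - δ) (b := m + δ) (R := R) (by linarith) (by linarith) (by linarith)
    have c : 8 * K * η ≤ 2 * (l - δ - (m + δ)) / R ^ 3 := by
      rw [hK, le_div_iff₀ (by positivity)]
      have : 8 * (1 / (8 * R ^ 3)) * η * R ^ 3 = η := by field_simp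
      rw [this]; linarith
    have d : η - 2 * δ ≤ l - δ - m' := by linarith
    have d0 : 0 ≤ η - 2 * δ := by linarith
    have d2 : (η - 2 * δ) ^ 2 ≤ (l - δ - m') ^ 2 := pow_le_pow_left₀ d0 d 2
    have d3 : K * (η - 2 * δ) ^ 2 ≤ K * (l - δ - m') ^ 2 := mul_le_mul_of_nonneg_left d2 hK0.le
    refine le_trans ?_ d3
    rw [sub_zero] at a
    rcases max_cases (K * η ^ 2 - sp (l - δ) * δ) 0 with h | h
    · rw [h.1]
      have e1 : (sp (l - δ) - sp (m + δ)) * δ ≥ 8 * K * η * δ :=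
        mul_le_mul_of_nonneg_right (by linarith) hδ0.le
      have e2 : 0 ≤ K * η * δ := by positivity
      have e3 : 0 ≤ K * δ ^ 2 := by positivity
      nlinarith
    · rw [h.1]
      have e1 : sp (m + δ) * δ ≤ 2 * δ := mul_le_mul_of_nonneg_right (sp_le _) hδ0.le
      have e2 : (η / 2) ^ 2 ≤ (η - 2 * δ) ^ 2 := pow_le_pow_left₀ (by linarith) (by linarith) 2
      have e3 : K * (η / 2) ^ 2 ≤ K * (η - 2 * δ) ^ 2 := mul_le_mul_of_nonneg_left e2 hK0.le
      have e4 : K * (η / 2) ^ 2 = 2 * δ := by rw [hδ]; ring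
      linarith
  · simp only [k3]; ring

lemma phaseB [CompactSpace (MM Y)] (hG : Strat x₀ y₀ G) (hx : 0 < vv x₀) (hy : 0 < vv y₀) {R : ℝ}
    {x : (ℝ → MM Y) × ℝ} (h : Inv x₀ G R x) :
    ∃ g : ℝ → MM Y, Lip g ∧ g 0 = x₀ ∧ ∃ t, 0 ≤ t ∧ G g t = g t := by
  have hs : ∀ x : {x // Inv x₀ G R x}, ∃ x' : {x // Inv x₀ G R x},
      (∀ s, s ≤ x.1.2 → x'.1.1 s = x.1.1 s) ∧
      x'.1.2 = x.1.2 + 1 / (8 * R ^ 3) * (dep (x.1.1 x.1.2) - dep (G x.1.1 x.1.2)) ^ 2 / 8 ∧
      dep (x'.1.1 x'.1.2) + x'.1.2 = dep (x.1.1 x.1.2) + x.1.2 := by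
    intro x
    obtain ⟨x', a, b⟩ := stepB hG hx hy x.2
    exact ⟨⟨x', a⟩, b⟩
  choose nx hn1 hn2 hn3 using hs
  let u : ℕ → {x // Inv x₀ G R x} := fun n => nx^[n] ⟨x, h⟩
  have hu : ∀ n, u (n + 1) = nx (u n) := fun n => Function.iterate_succ_apply' _ _ _
  let f : ℕ → ℝ → MM Y := fun n => (u n).1.1
  let τ : ℕ → ℝ := fun n => (u n).1.2
  let η : ℕ → ℝ := fun n => dep (f n (τ n)) - dep (G (f n) (τ n))
  have hI : ∀ n, Inv x₀ G R (f n, τ n) := fun n => (u n).2
  have hη0 : ∀ n, 0 < η n := fun n => sub_pos.2 (hI n).2.2.2.1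
  have hm1 : ∀ n, 1 ≤ dep (G (f n) (τ n)) := fun n => by
    obtain ⟨hg, hg0⟩ := hG.lip _ (hI n).1 (hI n).2.1
    exact one_le_dep (vert_pos hg (hg0 ▸ hy) (hI n).2.2.1)
  have hR1 : 1 ≤ R := by
    have := hm1 0
    have a := (hI 0).2.2.2.1
    have b := (hI 0).2.2.2.2.1
    simp only at a b
    linarith
  set K : ℝ := 1 / (8 * R ^ 3) with hK
  have hK0 : 0 < K := by positivity
  have hτs : ∀ n, τ (n + 1) = τ n + K * η n ^ 2 / 8 := fun n => by
    simp only [τ, η, f, hu]; exact hn2 _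
  have hmono : Monotone τ := monotone_nat_of_le_succ fun n => by
    rw [hτs]; have := hη0 n; have : 0 ≤ K * η n ^ 2 / 8 := by positivity
    linarith
  have hcons : ∀ n, dep (f n (τ n)) + τ n = dep (f 0 (τ 0)) + τ 0 := by
    intro n
    induction n with
    | zero => rfl
    | succ n ih => rw [← ih]; simp only [τ, f, hu]; exact hn3 _
  have hbdd : BddAbove (Set.range τ) := by
    refine ⟨dep (f 0 (τ 0)) + τ 0, ?_⟩
    rintro _ ⟨n, rfl⟩
    have a := hcons n
    have b := hm1 n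
    have c := hη0 n
    simp only [η] at c
    linarith
  obtain ⟨g, hg, hgf⟩ := exists_limit f τ (fun n => (hI n).1) hmono (fun n s hs => by
    simp only [f, hu]; exact hn1 _ s hs)
  have hg0 : g 0 = x₀ := by rw [hgf 0 0 (hI 0).2.2.1]; exact (hI 0).2.1
  set T := ⨆ n, τ n with hT
  have hlim : Tendsto τ atTop (𝓝 T) := tendsto_atTop_ciSup hmono hbdd
  have hle : ∀ n, τ n ≤ T := fun n => le_ciSup hbdd n
  have hT0 : 0 ≤ T := (hI 0).2.2.1.trans (hle 0)
  obtain ⟨hGg, hGg0⟩ := hG.lip _ hg hg0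
  have hηlim : Tendsto η atTop (𝓝 0) := by
    have e : η = fun n => Real.sqrt (8 / K * (τ (n + 1) - τ n)) := by
      funext n
      rw [hτs, show 8 / K * (τ n + K * η n ^ 2 / 8 - τ n) = η n ^ 2 by field_simp; ring,
        Real.sqrt_sq (hη0 n).le]
    rw [e]
    have h1 : Tendsto (fun n => 8 / K * (τ (n + 1) - τ n)) atTop (𝓝 (8 / K * (T - T))) :=
      tendsto_const_nhds.mul (((tendsto_add_atTop_iff_nat 1).2 hlim).sub hlim)
    have := (Real.continuous_sqrt.tendsto _).comp h1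
    simpa [Function.comp_def] using this
  have hd : ∀ n, dist (G g T) (g T) ≤ 2 * (T - τ n) + η n := by
    intro n
    have h0 : 0 ≤ τ n := (hI n).2.2.1
    have e1 : G g (τ n) = G (f n) (τ n) :=
      hG.na _ _ hg hg0 (hI n).1 (hI n).2.1 (τ n) (fun s _ hs => hgf n s hs) _ h0 le_rfl
    have e2 : g (τ n) = f n (τ n) := hgf n _ le_rfl
    have d1 := hGg (τ n) T h0 (hle n)
    have d2 := hg (τ n) T h0 (hle n)
    have d3 : dist (G (f n) (τ n)) (f n (τ n)) ≤ η n := by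
      obtain ⟨hg', hg0'⟩ := hG.lip _ (hI n).1 (hI n).2.1
      refine dist_bound (vert_pos hg' (hg0' ▸ hy) h0)
        (vert_pos (hI n).1 ((hI n).2.1 ▸ hx) h0) (by rw [abs_of_pos (hη0 n)]) fun i => ?_
      have a := (hI n).2.2.2.2.2.close i
      have b : 1 ≤ sp (max (dep (G (f n) (τ n))) (dep (f n (τ n)))) :=
        one_le_sp (le_max_of_le_left (hm1 n))
      have c : η n ≤ R := by
        have := (hI n).2.2.2.2.1
        have := hm1 n
        simp only [η] at *
        linarith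
      have hKη : K * η n ≤ 1 := by
        rw [hK, div_mul_eq_mul_div, one_mul, div_le_one (by positivity)]
        have : R ≤ R ^ 3 := by
          nlinarith [mul_nonneg (sub_nonneg.2 hR1) (by positivity : 0 ≤ R * (R + 1))]
        nlinarith
      have d : K * η n ^ 2 ≤ η n := by nlinarith [hη0 n]
      have e := hη0 n
      refine a.trans (d.trans ?_)
      nlinarith
    rw [← e1, ← e2] at d3
    have t1 := dist_triangle4 (G g T) (G g (τ n)) (g (τ n)) (g T)
    rw [dist_comm (g (τ n)) (g T)] at t1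
    linarith
  have hlim2 : Tendsto (fun n => 2 * (T - τ n) + η n) atTop (𝓝 (2 * (T - T) + 0)) :=
    (tendsto_const_nhds.mul (tendsto_const_nhds.sub hlim)).add hηlim
  have := ge_of_tendsto' hlim2 hd
  refine ⟨g, hg, hg0, T, hT0, ?_⟩
  exact dist_le_zero.1 (by simpa using this)

/-- If the Lion is one level deeper and closer than the critical distance, then against any
strategy of the Christian some Lion path catches him. -/
theorem chase [CompactSpace (MM Y)] (hG : Strat x₀ y₀ G) (hx : 0 < vv x₀) (hy : 0 < vv y₀)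
    {f : ℝ → MM Y} (hf : Lip f) (hf0 : f 0 = x₀) {t m L : ℝ} (ht : 0 ≤ t) (hm : 1 ≤ m)
    (hl : dep (f t) = m + 1) (hM : dep (G f t) ≤ m)
    (hL : Reach (yy (f t)) (yy (G f t)) L) (hlt : L < 1 / m - 1 / (m + 1)) :
    ∃ g : ℝ → MM Y, Lip g ∧ g 0 = x₀ ∧ ∃ t, 0 ≤ t ∧ G g t = g t := by
  set ε := 1 / m - 1 / (m + 1) - L with hε
  have hε0 : 0 < ε := by linarith
  set T := 1 / ε with hT
  have hT0 : 0 < T := by positivity
  set R := m + T + 1 with hR
  have hR0 : 0 < R := by linarith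
  set K : ℝ := 1 / (8 * R ^ 3) with hK
  have hK0 : 0 < K := by positivity
  obtain ⟨N, hN⟩ := exists_nat_gt (2 * T / K)
  have hN0 : (0 : ℝ) < N := lt_trans (by positivity) hN
  obtain ⟨f', h1, h2, h3, h4, h5⟩ := phaseA hG hx hy hf hf0 ht hm hl hM (ε := ε)
    (by rw [hε]; simpa using hL) (δ := T / N) (by positivity) N
  have e : (N : ℝ) * (T / N) = T := by field_simp
  rw [e] at h3 h4 h5
  refine phaseB hG hx hy (R := R) (x := (f', t + T)) ⟨h1, h2, by simp only; linarith, ?_, ?_, ?_⟩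
  · simp only; linarith
  · simp only; linarith
  · simp only
    refine h5.mono (max_le ?_ ?_)
    · have a : 1 / (m + T) ≤ 1 / T := one_div_le_one_div_of_le hT0 (by linarith)
      have b : 0 < 1 / (m + T + 1) := by positivity
      have c : 1 / T = ε := by rw [hT, one_div_one_div]
      have d : 0 ≤ K * (dep (f' (t + T)) - dep (G f' (t + T))) ^ 2 := by positivity
      linarith
    · have a : 2 * (T / N) ≤ K := by
        rw [div_lt_iff₀ hK0] at hN
        rw [← mul_div_assoc, div_le_iff₀ hN0]; linarith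
      have b : 1 ≤ (dep (f' (t + T)) - dep (G f' (t + T))) ^ 2 := one_le_pow₀ (by linarith)
      nlinarith

end chase

end Pool.Agent.H86Z.Lion
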