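import Pool.Agent.H86Z.Lion.C

set_option autoImplicit false

namespace Pool.Agent.H86Z.Lion

open Filter Topology

lemma compact_acc {J : Type} (F : ℕ → ℝ → (J → ℝ)) (S : ℕ → Set ℝ)
    (hS : ∀ k, IsCompact (F k '' S k)) (hS01 : ∀ k, S k ⊆ Set.Icc 0 1) (F0 : ℝ → (J → ℝ))
    {K0 : Set (J → ℝ)} (hK0 : IsCompact K0) (hF0 : ∀ u, F0 u ∈ K0) (hc : Continuous F0)
    (happ : ∀ i ε, 0 < ε → ∃ N, ∀ k, N ≤ k → ∀ u ∈ S k, |F k u i - F0 u i| ≤ ε) :
    IsCompact (K0 ∪ ⋃ k, F k '' S k) := by
  rw [isCompact_iff_ultrafilter_le_nhds']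
  intro f hf
  by_cases h0 : K0 ∈ f
  · obtain ⟨x, hx, hx'⟩ := isCompact_iff_ultrafilter_le_nhds'.1 hK0 f h0
    exact ⟨x, Or.inl hx, hx'⟩
  by_cases h1 : ∃ k, F k '' S k ∈ f
  · obtain ⟨k, hk⟩ := h1
    obtain ⟨x, hx, hx'⟩ := isCompact_iff_ultrafilter_le_nhds'.1 (hS k) f hk
    exact ⟨x, Or.inr (Set.mem_iUnion.2 ⟨k, hx⟩), hx'⟩
  push Not at h1
  have hU : (⋃ k, F k '' S k) ∈ f := (Ultrafilter.union_mem_iff.1 hf).resolve_left h0
  have hch : ∀ y : J → ℝ, ∃ k : ℕ, ∃ u : ℝ, y ∈ (⋃ k, F k '' S k) → u ∈ S k ∧ F k u = y := by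
    intro y
    by_cases hy : y ∈ ⋃ k, F k '' S k
    · obtain ⟨k, u, hu, e⟩ := Set.mem_iUnion.1 hy
      exact ⟨k, u, fun _ => ⟨hu, e⟩⟩
    · exact ⟨0, 0, fun h => absurd h hy⟩
  choose κ υ hκ using hch
  have hN : ∀ N, ∀ᶠ y in (f : Filter (J → ℝ)), N ≤ κ y := by
    intro N
    have h2 : ∀ᶠ y in (f : Filter (J → ℝ)), ∀ k ∈ Finset.range N, y ∉ F k '' S k := by
      rw [eventually_all_finset]
      intro k _
      exact Ultrafilter.compl_mem_iff_notMem.2 (h1 k)
    filter_upwards [h2, hU] with y hy hy'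
    by_contra hlt
    exact hy (κ y) (Finset.mem_range.2 (not_le.1 hlt)) ⟨υ y, (hκ y hy').1, (hκ y hy').2⟩
  obtain ⟨u, -, hu⟩ := isCompact_iff_ultrafilter_le_nhds'.1 (isCompact_Icc (a := (0 : ℝ)) (b := 1))
    (f.map υ) (by
      rw [Ultrafilter.mem_map]
      filter_upwards [hU] with y hy
      exact hS01 _ (hκ y hy).1)
  have hu' : Tendsto υ (f : Filter (J → ℝ)) (𝓝 u) := hu
  refine ⟨F0 u, Or.inl (hF0 u), ?_⟩
  have : Tendsto (fun y : J → ℝ => y) (f : Filter (J → ℝ)) (𝓝 (F0 u)) := by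
    rw [tendsto_pi_nhds]
    intro i
    have h3 : Tendsto (fun y => F0 (υ y) i) (f : Filter (J → ℝ)) (𝓝 (F0 u i)) :=
      (((continuous_apply i).comp hc).tendsto u).comp hu'
    have h4 : Tendsto (fun y => y i - F0 (υ y) i) (f : Filter (J → ℝ)) (𝓝 0) := by
      rw [Metric.tendsto_nhds]
      intro ε hε
      obtain ⟨N, hN'⟩ := happ i (ε / 2) (by linarith)
      filter_upwards [hN N, hU] with y hy hy'
      have := hN' (κ y) hy (υ y) (hκ y hy').1
      rw [(hκ y hy').2] at this
      rw [Real.dist_eq, sub_zero]; linarith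
    have := h4.add h3
    simpa using this
  exact this

noncomputable def aa (k : ℕ) : ℝ := 1 / 100 * (1 / 4) ^ k
noncomputable def alpha (t : ℝ) : ℝ := AA 2 t - AA 2 0
noncomputable def beta (t : ℝ) : ℝ := AA 1 t - AA 1 0
noncomputable def al (k : ℕ) : ℝ := alpha (aa k)
noncomputable def ga (k : ℕ) : ℝ := beta (aa k)
noncomputable def be (j : ℕ) : ℝ := beta (2 * aa j)
noncomputable def lo (j : ℕ) : ℝ := alpha (2 * aa j)
noncomputable def ep (k : ℕ) : ℝ := aa k / 8
noncomputable def len (k : ℕ) : ℝ := 1 / 2 + ga k - al k - ep k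
noncomputable def XX : ℝ := 1 / 2 + be 0

lemma aa_pos (k : ℕ) : 0 < aa k := by unfold aa; positivity
lemma aa_anti {k k' : ℕ} (h : k ≤ k') : aa k' ≤ aa k := by
  unfold aa
  exact mul_le_mul_of_nonneg_left (pow_le_pow_of_le_one (by norm_num) (by norm_num) h) (by norm_num)
lemma aa_succ (k : ℕ) : aa (k + 1) = aa k / 4 := by unfold aa; ring
lemma aa_le (k : ℕ) : aa k ≤ 1 / 100 := (aa_anti (Nat.zero_le k)).trans (by simp [aa])
lemma aa_lt {k k' : ℕ} (h : k < k') : aa k' ≤ aa k / 4 := by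
  rw [← aa_succ]; exact aa_anti h
lemma aa_small {ε : ℝ} (hε : 0 < ε) : ∃ N, ∀ k, N ≤ k → aa k ≤ ε := by
  obtain ⟨N, hN⟩ := exists_pow_lt_of_lt_one hε (by norm_num : (1 / 4 : ℝ) < 1)
  refine ⟨N, fun k hk => (aa_anti hk).trans ?_⟩
  unfold aa
  have : (0 : ℝ) < (1 / 4) ^ N := by positivity
  linarith

lemma alpha_ge {s t : ℝ} (hs : 0 ≤ s) (h : s ≤ t) : t - s ≤ alpha t - alpha s := by
  have := AA_ge (R := 2) (by norm_num) hs h
  unfold alpha; linarith
lemma alpha_le {s t : ℝ} (hs : 0 ≤ s) (h : s ≤ t) : alpha t - alpha s ≤ 2 * (t - s) := by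
  have := AA_le (R := 2) (by norm_num) hs h
  unfold alpha; linarith
lemma beta_ge {s t : ℝ} (hs : 0 ≤ s) (h : s ≤ t) : t - s ≤ beta t - beta s := by
  have := AA_ge (R := 1) (by norm_num) hs h
  unfold beta; linarith
lemma beta_le {s t : ℝ} (hs : 0 ≤ s) (h : s ≤ t) : beta t - beta s ≤ 2 * (t - s) := by
  have := AA_le (R := 1) (by norm_num) hs h
  unfold beta; linarith
lemma alpha_zero : alpha 0 = 0 := by simp [alpha]
lemma beta_zero : beta 0 = 0 := by simp [beta]
lemma crit (t : ℝ) : 1 / 2 + beta t - alpha t = 1 / (1 + t) - 1 / (2 + t) := by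
  unfold alpha beta AA; norm_num; ring

lemma al_bd (k : ℕ) : aa k ≤ al k ∧ al k ≤ 2 * aa k := by
  have a := alpha_ge le_rfl (aa_pos k).le
  have b := alpha_le le_rfl (aa_pos k).le
  rw [alpha_zero] at a b
  unfold al; constructor <;> linarith
lemma ga_bd (k : ℕ) : aa k ≤ ga k ∧ ga k ≤ 2 * aa k := by
  have a := beta_ge le_rfl (aa_pos k).le
  have b := beta_le le_rfl (aa_pos k).le
  rw [beta_zero] at a b
  unfold ga; constructor <;> linarith
lemma be_bd (k : ℕ) : 2 * aa k ≤ be k ∧ be k ≤ 4 * aa k := by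
  have h : 0 ≤ 2 * aa k := by linarith [aa_pos k]
  have a := beta_ge le_rfl h
  have b := beta_le le_rfl h
  rw [beta_zero] at a b
  unfold be; constructor <;> linarith
lemma lo_bd (k : ℕ) : 2 * aa k ≤ lo k ∧ lo k ≤ 4 * aa k := by
  have h : 0 ≤ 2 * aa k := by linarith [aa_pos k]
  have a := alpha_ge le_rfl h
  have b := alpha_le le_rfl h
  rw [alpha_zero] at a b
  unfold lo; constructor <;> linarith

lemma al_lo {j k : ℕ} (h : j ≤ k) : al k + aa j ≤ lo j := by
  have := alpha_ge (aa_pos k).le (show aa k ≤ 2 * aa j by linarith [aa_anti h, aa_pos j])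
  unfold al lo; linarith [aa_anti h]
lemma ga_be {j k : ℕ} (h : j ≤ k) : ga k + aa j ≤ be j := by
  have := beta_ge (aa_pos k).le (show aa k ≤ 2 * aa j by linarith [aa_anti h, aa_pos j])
  unfold ga be; linarith [aa_anti h]
lemma be_ga {j k : ℕ} (h : k < j) : be j + aa k / 2 ≤ ga k := by
  have := beta_ge (s := 2 * aa j) (t := aa k) (by linarith [aa_pos j])
    (by linarith [aa_lt h, aa_pos k])
  unfold ga be; linarith [aa_lt h]
lemma be_le_zero (j : ℕ) : be j ≤ be 0 := by
  have := beta_ge (s := 2 * aa j) (t := 2 * aa 0) (by linarith [aa_pos j])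
    (by linarith [aa_anti (Nat.zero_le j)])
  unfold be; linarith [aa_anti (Nat.zero_le j)]

abbrev JJ : Type := (ℕ × ℕ) ⊕ ℕ ⊕ ℕ

noncomputable def mainF (x : ℝ) : JJ → ℝ
  | .inl (j, _) => cl (lo j) (1 / 2 + be j) x
  | .inr (.inl _) => min x (1 / 4)
  | .inr (.inr k) => cl (1 / 4) (1 / 2 + ga k) x

noncomputable def shortF (k : ℕ) (u : ℝ) : JJ → ℝ
  | .inl (j, _) => cl (lo j) (1 / 2 + be j) (al k + u + if j ≤ k then ep k else 0)
  | .inr (.inl k') => if k' = k then max (al k - u) (1 / 4 - (len k - u)) else min (al k + u) (1 / 4)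
  | .inr (.inr k') => if k' = k then min (1 / 2 + ga k + (len k - u)) (1 / 4 + u)
      else cl (1 / 4) (1 / 2 + ga k') (al k + ep k + u)

noncomputable def rayF (j : ℕ) (w : ℝ) : JJ → ℝ
  | .inl (j', n) => cl (lo j') (1 / 2 + be j') (1 / 2 + be j) + if j' = j then tr n w - 1 else 0
  | .inr (.inl _) => 1 / 4
  | .inr (.inr k) => cl (1 / 4) (1 / 2 + ga k) (1 / 2 + be j)

/-- the horizontal space -/
def YY : Set (JJ → ℝ) :=
  (mainF '' Set.Icc 0 XX ∪ ⋃ k, shortF k '' Set.Icc 0 (len k)) ∪ ⋃ j, rayF j '' Set.Icc 0 1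

lemma main_lip (i : JJ) (x x' : ℝ) : |mainF x i - mainF x' i| ≤ |x - x'| := by
  rcases i with ⟨j, n⟩ | k | k
  · exact cl_lip _ _ _ _
  · exact (abs_min_sub_min_le_max _ _ _ _).trans (by simp)
  · exact cl_lip _ _ _ _

lemma short_lip (k : ℕ) (i : JJ) (u u' : ℝ) : |shortF k u i - shortF k u' i| ≤ |u - u'| := by
  rcases i with ⟨j, n⟩ | k' | k'
  · refine (cl_lip _ _ _ _).trans (le_of_eq ?_)
    congr 1; ring
  · simp only [shortF]
    split_ifs
    · refine (abs_max_sub_max_le_max _ _ _ _).trans (max_le (le_of_eq ?_) (le_of_eq ?_))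
      · rw [abs_sub_comm]; congr 1; ring
      · congr 1; ring
    · refine (abs_min_sub_min_le_max _ _ _ _).trans (max_le (le_of_eq ?_) (by simp))
      congr 1; ring
  · simp only [shortF]
    split_ifs
    · refine (abs_min_sub_min_le_max _ _ _ _).trans (max_le (le_of_eq ?_) (le_of_eq ?_))
      · rw [abs_sub_comm]; congr 1; ring
      · congr 1; ring
    · refine (cl_lip _ _ _ _).trans (le_of_eq ?_)
      congr 1; ring

lemma cont_of_lip {F : ℝ → JJ → ℝ} (h : ∀ i u u', |F u i - F u' i| ≤ |u - u'|) : Continuous F := by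
  refine continuous_pi fun i => ?_
  refine (LipschitzWith.of_dist_le_mul (K := 1) fun u u' => ?_).continuous
  simpa [Real.dist_eq] using h i u u'

lemma ray_cont (j : ℕ) : Continuous (rayF j) := by
  refine continuous_pi fun i => ?_
  rcases i with ⟨j', n⟩ | k | k
  · simp only [rayF]
    split_ifs
    · exact continuous_const.add ((tr_cont n).sub continuous_const)
    · exact continuous_const
  · exact continuous_const
  · exact continuous_const

lemma XX_bd : 1 / 2 ≤ XX ∧ XX ≤ 1 := by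
  have := be_bd 0
  have := aa_le 0
  have := aa_pos 0
  unfold XX; constructor <;> linarith

lemma len_bd (k : ℕ) : 1 / 2 - 1 / 40 ≤ len k ∧ len k ≤ XX := by
  have := al_bd k
  have := ga_bd k
  have := ga_be (Nat.zero_le k)
  have := aa_le k
  have := aa_pos k
  have := aa_pos 0
  unfold len XX ep; constructor <;> linarith

lemma YY_compact : IsCompact YY := by
  have h0 : IsCompact (mainF '' Set.Icc 0 XX) := isCompact_Icc.image (cont_of_lip main_lip)
  have h1 : IsCompact (mainF '' Set.Icc 0 XX ∪ ⋃ k, shortF k '' Set.Icc 0 (len k)) := by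
    refine compact_acc shortF (fun k => Set.Icc 0 (len k))
      (fun k => isCompact_Icc.image (cont_of_lip (short_lip k)))
      (fun k => Set.Icc_subset_Icc_right ((len_bd k).2.trans XX_bd.2))
      (fun u => mainF (cl 0 XX u)) h0
      (fun u => ⟨_, ⟨le_cl _ _ _, cl_le (by linarith [XX_bd.1]) _⟩, rfl⟩)
      ((cont_of_lip main_lip).comp (cl_cont _ _)) ?_
    intro i ε hε
    obtain ⟨N, hN⟩ := aa_small (ε := ε / 3) (by linarith)
    have hb : ∀ k, N ≤ k → 0 ≤ al k ∧ 0 ≤ ep k ∧ al k + ep k ≤ ε := by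
      intro k hk
      have := hN k hk
      have := al_bd k
      have := aa_pos k
      unfold ep
      refine ⟨by linarith, by linarith, by linarith⟩
    rcases i with ⟨j, n⟩ | k' | k'
    · refine ⟨N, fun k hk u hu => ?_⟩
      obtain ⟨b1, b2, b3⟩ := hb k hk
      rw [cl_of_mem hu.1 (hu.2.trans (len_bd k).2)]
      refine (cl_lip _ _ _ _).trans ?_
      split_ifs <;> rw [abs_of_nonneg (by linarith)] <;> linarith
    · refine ⟨max N (k' + 1), fun k hk u hu => ?_⟩
      obtain ⟨b1, b2, b3⟩ := hb k (le_of_max_le_left hk)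
      have hne : k' ≠ k := by have := le_of_max_le_right hk; omega
      rw [cl_of_mem hu.1 (hu.2.trans (len_bd k).2)]
      simp only [shortF, mainF, if_neg hne]
      refine (abs_min_sub_min_le_max _ _ _ _).trans (max_le ?_ (by simp [hε.le]))
      rw [abs_of_nonneg (by linarith)]; linarith
    · refine ⟨max N (k' + 1), fun k hk u hu => ?_⟩
      obtain ⟨b1, b2, b3⟩ := hb k (le_of_max_le_left hk)
      have hne : k' ≠ k := by have := le_of_max_le_right hk; omega
      rw [cl_of_mem hu.1 (hu.2.trans (len_bd k).2)]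
      simp only [shortF, mainF, if_neg hne]
      refine (cl_lip _ _ _ _).trans ?_
      rw [abs_of_nonneg (by linarith)]; linarith
  refine compact_acc rayF (fun _ => Set.Icc 0 1) (fun j => isCompact_Icc.image (ray_cont j))
    (fun _ => subset_rfl) (fun _ => mainF (1 / 2)) h1
    (fun _ => Or.inl ⟨_, ⟨by norm_num, XX_bd.1⟩, rfl⟩) continuous_const ?_
  intro i ε hε
  obtain ⟨N, hN⟩ := aa_small (ε := ε / 4) (by linarith)
  have hb : ∀ k, N ≤ k → |1 / 2 + be k - 1 / 2| ≤ ε := by
    intro k hk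
    have := hN k hk
    have := be_bd k
    have := aa_pos k
    rw [abs_of_nonneg (by linarith)]; linarith
  rcases i with ⟨j', n⟩ | k | k
  · refine ⟨max N (j' + 1), fun j hj u _ => ?_⟩
    have hne : j' ≠ j := by have := le_of_max_le_right hj; omega
    simp only [rayF, mainF, if_neg hne, add_zero]
    exact (cl_lip _ _ _ _).trans (hb j (le_of_max_le_left hj))
  · refine ⟨0, fun j _ u _ => ?_⟩
    simp only [rayF, mainF]
    rw [min_eq_right (by norm_num)]; simp [hε.le]
  · refine ⟨N, fun j hj u _ => ?_⟩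
    exact (cl_lip _ _ _ _).trans (hb j hj)

lemma short_zero (k : ℕ) : shortF k 0 = mainF (al k) := by
  have h1 := al_bd k
  have h2 := aa_le k
  have h3 := aa_pos k
  have h4 := len_bd k
  have h5 := ga_bd k
  funext i
  rcases i with ⟨j, n⟩ | k' | k'
  · simp only [shortF, mainF]
    split_ifs with h
    · have := al_lo h
      have := aa_anti h
      rw [cl_of_le (by unfold ep; linarith), cl_of_le (by linarith)]
    · simp
  · simp only [shortF, mainF]
    split_ifs
    · rw [max_eq_left (by linarith), min_eq_left (by linarith), sub_zero]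
    · simp
  · simp only [shortF, mainF]
    split_ifs
    · rw [min_eq_right (by linarith), cl_of_le (by linarith), add_zero]
    · rw [cl_of_le (by unfold ep; linarith), cl_of_le (by linarith)]

lemma short_len (k : ℕ) : shortF k (len k) = mainF (1 / 2 + ga k) := by
  have h1 := al_bd k
  have h2 := aa_le k
  have h3 := aa_pos k
  have h4 := len_bd k
  have h5 := ga_bd k
  funext i
  rcases i with ⟨j, n⟩ | k' | k'
  · simp only [shortF, mainF]
    split_ifs with h
    · congr 1; unfold len; ring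
    · have := be_ga (not_le.1 h)
      have := lo_bd j
      have := be_bd j
      have := aa_le j
      have := aa_pos j
      rw [cl_of_ge (by linarith) (by unfold len ep; linarith), cl_of_ge (by linarith) (by linarith)]
  · simp only [shortF, mainF]
    split_ifs
    · rw [max_eq_right (by linarith), min_eq_right (by linarith)]; ring
    · rw [min_eq_right (by linarith), min_eq_right (by linarith)]
  · simp only [shortF, mainF]
    split_ifs with h
    · subst h
      rw [min_eq_left (by linarith), cl_of_mem (by linarith) le_rfl]; ring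
    · congr 1; unfold len; ring

lemma ray_one (j : ℕ) : rayF j 1 = mainF (1 / 2 + be j) := by
  have h1 := be_bd j
  have h3 := aa_pos j
  funext i
  rcases i with ⟨j', n⟩ | k' | k'
  · simp only [rayF, mainF]
    rw [tr_eq_min n one_pos, min_eq_left (by
      linarith [(Nat.cast_nonneg n : (0 : ℝ) ≤ n)])]
    simp
  · simp only [rayF, mainF]
    rw [min_eq_right (by linarith)]
  · rfl

noncomputable def mainA (x : ℝ) : YY :=
  ⟨mainF (cl 0 XX x), Or.inl (Or.inl ⟨_, ⟨le_cl _ _ _, cl_le (by linarith [XX_bd.1]) _⟩, rfl⟩)⟩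

noncomputable def shortA (k : ℕ) (u : ℝ) : YY :=
  ⟨shortF k (cl 0 (len k) u), Or.inl (Or.inr (Set.mem_iUnion.2
    ⟨k, _, ⟨le_cl _ _ _, cl_le (by linarith [(len_bd k).1]) _⟩, rfl⟩))⟩

noncomputable def rayA (j : ℕ) (z : ℝ) : YY :=
  ⟨rayF j (1 / (1 + max z 0)), Or.inr (Set.mem_iUnion.2 ⟨j, _, ⟨by positivity, by
    rw [div_le_one (by positivity)]; linarith [le_max_right z 0]⟩, rfl⟩)⟩

lemma mainA_arc : Arc mainA := fun i _ _ => (main_lip i _ _).trans (cl_lip _ _ _ _)
lemma shortA_arc (k : ℕ) : Arc (shortA k) := fun i _ _ => (short_lip k i _ _).trans (cl_lip _ _ _ _)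

lemma rayA_arc (j : ℕ) : Arc (rayA j) := by
  intro i z z'
  rcases i with ⟨j', n⟩ | k | k
  · simp only [rayA, rayF]
    split_ifs
    · rw [tr_eq_min n (by positivity), tr_eq_min n (by positivity), one_div_one_div, one_div_one_div,
        add_sub_add_left_eq_sub, sub_sub_sub_cancel_right]
      refine (abs_min_sub_min_le_max _ _ _ _).trans (max_le ?_ (by simp))
      rw [add_sub_add_left_eq_sub]
      exact (abs_max_sub_max_le_max _ _ _ _).trans (by simp)
    · simp
  · simp [rayA, rayF]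
  · simp [rayA, rayF]

lemma mainA_val {x : ℝ} (h0 : 0 ≤ x) (h1 : x ≤ XX) : (mainA x).1 = mainF x := by
  simp only [mainA, cl_of_mem h0 h1]

lemma shortA_val {k : ℕ} {u : ℝ} (h0 : 0 ≤ u) (h1 : u ≤ len k) : (shortA k u).1 = shortF k u := by
  simp only [shortA, cl_of_mem h0 h1]

lemma rayA_val {j : ℕ} {z : ℝ} (h0 : 0 ≤ z) : (rayA j z).1 = rayF j (1 / (1 + z)) := by
  simp only [rayA, max_eq_left h0]

lemma shortA_zero (k : ℕ) : shortA k 0 = mainA (al k) := by
  have h1 := al_bd k
  have h2 := aa_le k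
  have h3 := aa_pos k
  apply Subtype.ext
  rw [shortA_val le_rfl (by linarith [(len_bd k).1]), mainA_val (by linarith) (by linarith [XX_bd.1]),
    short_zero]

lemma shortA_len (k : ℕ) : shortA k (len k) = mainA (1 / 2 + ga k) := by
  have h1 := ga_bd k
  have h2 := ga_be (Nat.zero_le k)
  have h3 := aa_pos k
  have h4 := aa_pos 0
  apply Subtype.ext
  rw [shortA_val (by linarith [(len_bd k).1]) le_rfl,
    mainA_val (by linarith) (by unfold XX; linarith), short_len]

lemma rayA_zero (j : ℕ) : rayA j 0 = mainA (1 / 2 + be j) := by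
  have h1 := be_bd j
  have h2 := be_le_zero j
  have h3 := aa_pos j
  apply Subtype.ext
  rw [rayA_val le_rfl, mainA_val (by linarith) (by unfold XX; linarith), ← ray_one]
  simp

end Pool.Agent.H86Z.Lion
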