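import Pool.Agent.H86Z.Lion.D

set_option autoImplicit false

namespace Pool.Agent.H86Z.Lion

open Filter Topology

noncomputable def x0 : MM YY := mk (mainA 0) 2
noncomputable def y0 : MM YY := mk (mainA (1 / 2)) 1

lemma lion_pot {f : ℝ → MM YY} (hf : Lip f) (h0 : f 0 = x0) (i : JJ) {s t : ℝ} (hs : 0 ≤ s)
    (hst : s ≤ t) : |(yy (f t)).1 i - (yy (f s)).1 i| ≤ alpha t - alpha s := by
  have := horiz hf (by rw [h0]; exact vv_mk_pos _ _) (t₀ := 0) (R := 2) le_rfl
    (by rw [h0]; exact (dep_mk _ (by norm_num)).le) i hs hst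
  unfold alpha
  simp only [sub_zero] at this
  linarith

lemma man_pot {f : ℝ → MM YY} (hf : Lip f) (h0 : f 0 = y0) (i : JJ) {s t : ℝ} (hs : 0 ≤ s)
    (hst : s ≤ t) : |(yy (f t)).1 i - (yy (f s)).1 i| ≤ beta t - beta s := by
  have := horiz hf (by rw [h0]; exact vv_mk_pos _ _) (t₀ := 0) (R := 1) le_rfl
    (by rw [h0]; exact (dep_mk _ (by norm_num)).le) i hs hst
  unfold beta
  simp only [sub_zero] at this
  linarith

lemma lion_W {f : ℝ → MM YY} (hf : Lip f) (h0 : f 0 = x0) (k : ℕ) {t : ℝ} (ht : 0 ≤ t) :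
    (yy (f t)).1 (.inr (.inl k)) ≤ alpha t := by
  have := lion_pot hf h0 (.inr (.inl k)) le_rfl ht
  rw [h0, alpha_zero] at this
  have e : (yy x0).1 (.inr (.inl k)) = 0 := by
    show (mainA 0).1 _ = 0
    rw [mainA_val le_rfl (by linarith [XX_bd.1])]
    simp [mainF]
  rw [e] at this
  linarith [le_abs_self ((yy (f t)).1 (.inr (.inl k)) - 0)]

lemma lion_pos {f : ℝ → MM YY} (hf : Lip f) (h0 : f 0 = x0) (j : ℕ) :
    (∀ n, (yy (f (2 * aa j))).1 (.inl (j, n)) ≤ lo j) ∨
    ∃ k u, j ≤ k ∧ 0 ≤ u ∧ (yy (f (2 * aa j))).1 = shortF k u ∧ al k + u ≤ lo j ∧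
      lo j < al k + u + ep k := by
  have hW : ∀ k, (yy (f (2 * aa j))).1 (.inr (.inl k)) ≤ lo j := fun k =>
    lion_W hf h0 k (by linarith [aa_pos j])
  have h1 := lo_bd j
  have h2 := aa_le j
  rcases (yy (f (2 * aa j))).2 with (⟨x, hx, e⟩ | h) | h
  · left
    intro n
    have := hW 0
    rw [← e] at this ⊢
    simp only [mainF] at this ⊢
    rw [cl_of_le ((min_le_iff.1 this).resolve_right (by linarith))]
  · obtain ⟨k, u, hu, e⟩ := Set.mem_iUnion.1 h
    have := hW (k + 1)
    rw [← e] at this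
    simp only [shortF, if_neg (Nat.succ_ne_self k)] at this
    have h3 := (min_le_iff.1 this).resolve_right (by linarith)
    by_cases h4 : j ≤ k ∧ lo j < al k + u + ep k
    · exact Or.inr ⟨k, u, h4.1, hu.1, e.symm, h3, h4.2⟩
    · left
      intro n
      rw [← e]
      simp only [shortF]
      split_ifs with h5
      · rw [cl_of_le (not_lt.1 fun h => h4 ⟨h5, h⟩)]
      · rw [cl_of_le (by linarith)]
  · obtain ⟨k, u, hu, e⟩ := Set.mem_iUnion.1 h
    have := hW 0
    rw [← e] at this
    simp only [rayF] at this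
    linarith

lemma lion_behind {f : ℝ → MM YY} (hf : Lip f) (h0 : f 0 = x0) :
    ∃ j, ∀ n, (yy (f (2 * aa j))).1 (.inl (j, n)) ≤ lo j := by
  by_contra hc
  push Not at hc
  have h : ∀ j, ∃ k u, j ≤ k ∧ 0 ≤ u ∧ (yy (f (2 * aa j))).1 = shortF k u ∧ al k + u ≤ lo j ∧
      lo j < al k + u + ep k := fun j =>
    (lion_pos hf h0 j).resolve_left fun h => by
      obtain ⟨n, hn⟩ := hc j
      linarith [h n]
  obtain ⟨k, u, -, hu, e, h1, h2⟩ := h 0
  obtain ⟨k', u', hk, hu', e', h1', h2'⟩ := h (k + 1)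
  have hp := lion_pot hf h0 (.inr (.inl k')) (s := 2 * aa (k + 1)) (t := 2 * aa 0)
    (by linarith [aa_pos (k + 1)]) (by linarith [aa_anti (Nat.zero_le (k + 1))])
  rw [e, e'] at hp
  have hne : k' ≠ k := by omega
  simp only [shortF, if_neg hne, if_true] at hp
  have b0 := lo_bd 0
  have b1 := aa_le 0
  have b2 := lo_bd (k + 1)
  have b3 := aa_le (k + 1)
  have b4 := al_bd k'
  have b5 := aa_pos k'
  have b6 := len_bd k'
  have b7 := al_lo hk
  have b8 := aa_succ k
  have b9 := aa_anti hk
  have b10 := aa_pos k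
  rw [min_eq_left (by linarith), max_eq_left (by linarith)] at hp
  have hp' := (le_abs_self _).trans hp
  change _ ≤ lo 0 - lo (k + 1) at hp'
  unfold ep at h2 h2'
  linarith

noncomputable def Γ (j : ℕ) : ℝ → YY := glue (fun σ => mainA (1 / 2 + σ)) (be j) (rayA j)

lemma Γ_lip (j : ℕ) : YLip (Γ j) := by
  intro i
  have h1 : Lip fun σ => (mainA (1 / 2 + σ)).1 i := fun s t _ hst => by
    have := mainA_arc i (1 / 2 + t) (1 / 2 + s)
    rw [add_sub_add_left_eq_sub, abs_of_nonneg (sub_nonneg.2 hst)] at this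
    exact this
  have h2 : Lip fun σ => (rayA j σ).1 i := fun s t _ hst => by
    have := rayA_arc j i t s
    rw [abs_of_nonneg (sub_nonneg.2 hst)] at this
    exact this
  have := glue_lip (a := be j) h1 h2 (by simp only [rayA_zero])
  convert this using 1
  funext t
  unfold Γ glue
  split_ifs <;> rfl

noncomputable def gp (j : ℕ) (t : ℝ) : MM YY := mk (Γ j (beta t)) (1 + t)

lemma beta_nonneg {t : ℝ} (ht : 0 ≤ t) : 0 ≤ beta t := by
  have := beta_ge le_rfl ht
  rw [beta_zero] at this; linarith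

lemma gp_lip (j : ℕ) : Lip (gp j) := by
  refine lip_mk (fun s hs => by linarith) (fun s t _ hst => by
    rw [add_sub_add_left_eq_sub, abs_of_nonneg (sub_nonneg.2 hst)]) fun i s t hs hst => ?_
  have a := beta_ge hs hst
  refine ((Γ_lip j).le i (beta_nonneg hs) (by linarith)).trans ?_
  rw [max_eq_left (by linarith)]
  have := AA_le_sp (R := 1) le_rfl hs hst
  unfold beta; linarith

lemma gp_le {j : ℕ} {t : ℝ} (ht : 0 ≤ t) (h : t ≤ 2 * aa j) :
    gp j t = mk (mainA (1 / 2 + beta t)) (1 + t) := by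
  unfold gp Γ
  rw [glue_le]
  have := beta_ge ht h
  unfold be; linarith

lemma gp_zero (j : ℕ) : gp j 0 = y0 := by
  rw [gp_le le_rfl (by linarith [aa_pos j]), beta_zero]; simp [y0]

theorem lion_fails {F : (ℝ → MM YY) → (ℝ → MM YY)} (hF : Strat y0 x0 F) :
    ∃ g, Lip g ∧ g 0 = y0 ∧ ∀ t, 0 ≤ t → F g t ≠ g t := by
  obtain ⟨hf, hf0⟩ := hF.lip _ (gp_lip 0) (gp_zero 0)
  obtain ⟨j, hj⟩ := lion_behind hf hf0
  obtain ⟨hf', hf0'⟩ := hF.lip _ (gp_lip j) (gp_zero j)
  have hb : 0 ≤ 2 * aa j := by linarith [aa_pos j]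
  have hag : F (gp j) (2 * aa j) = F (gp 0) (2 * aa j) :=
    hF.na _ _ (gp_lip j) (gp_zero j) (gp_lip 0) (gp_zero 0) (2 * aa j) (fun s hs hs' => by
      rw [gp_le hs hs', gp_le hs (by linarith [aa_anti (Nat.zero_le j)])]) _ hb le_rfl
  refine ⟨gp j, gp_lip j, gp_zero j, fun t ht hc => ?_⟩
  have b1 := lo_bd j
  have b2 := aa_le j
  rcases le_total t (2 * aa j) with h | h
  · have h1 := lion_W hf' hf0' 0 ht
    have h2 := alpha_ge ht h
    have h3 := beta_ge ht h
    have h4 := be_le_zero j
    rw [hc, gp_le ht h, yy_mk, mainA_val (by linarith [beta_nonneg ht])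
      (by unfold XX; unfold be at h4 ⊢; linarith)] at h1
    simp only [mainF] at h1
    rw [min_eq_right (by linarith [beta_nonneg ht])] at h1
    unfold lo at b1
    linarith
  · obtain ⟨n, hn⟩ := exists_nat_ge (beta t)
    have h1 := lion_pot hf' hf0' (.inl (j, n)) hb h
    have h2 := hj n
    rw [← hag] at h2
    have h3 := beta_ge hb h
    have h4 := be_bd j
    have e : (yy (gp j t)).1 (.inl (j, n)) = 1 / 2 + beta t := by
      unfold gp Γ
      rw [yy_mk, glue_ge (by simp only [rayA_zero]) (by unfold be; linarith),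
        rayA_val (by unfold be; linarith)]
      simp only [rayF, if_true]
      have : 0 < 1 + (beta t - be j) := by unfold be; linarith
      rw [tr_eq_min n (by positivity), one_div_one_div, min_eq_left (by linarith [aa_pos j]),
        cl_of_mem (by linarith [aa_pos j]) le_rfl]
      ring
    rw [hc, e] at h1
    have h5 := (le_abs_self _).trans h1
    have h6 := crit t
    have h7 : 1 / (2 + t) < 1 / (1 + t) := one_div_lt_one_div_of_lt (by linarith) (by linarith)
    unfold lo at h2
    linarith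

noncomputable def fp (t : ℝ) : MM YY := mk (mainA (alpha t)) (2 + t)

lemma fp_lip : Lip fp := by
  refine lip_mk (fun s hs => by linarith) (fun s t _ hst => by
    rw [add_sub_add_left_eq_sub, abs_of_nonneg (sub_nonneg.2 hst)]) fun i s t hs hst => ?_
  have a := alpha_ge hs hst
  refine (mainA_arc i _ _).trans ?_
  rw [max_eq_left (by linarith), abs_of_nonneg (by linarith)]
  have := AA_le_sp (R := 2) (by norm_num) hs hst
  unfold alpha; linarith

lemma fp_zero : fp 0 = x0 := by simp [fp, x0, alpha_zero]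

noncomputable def base : ℕ ⊕ ℕ → ℝ
  | .inl j => be j
  | .inr k => ga k

def pot : ℕ ⊕ ℕ → JJ
  | .inl j => .inl (j, 1)
  | .inr k => .inr (.inr k)

lemma base_pos (σ : ℕ ⊕ ℕ) : 0 < base σ := by
  rcases σ with j | k
  · have := be_bd j
    have := aa_pos j
    simp only [base]; linarith
  · have := ga_bd k
    have := aa_pos k
    simp only [base]; linarith

lemma classify {g : ℝ → MM YY} (hg : Lip g) (h0 : g 0 = y0) (k : ℕ)
    (hno : ∀ L, Reach (mainA (al k)) (yy (g (aa k))) L → 1 / 2 + ga k - al k ≤ L) :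
    ∃ σ, base σ < ga k ∧ (yy (g (aa k))).1 (pot σ) = 1 / 2 + ga k ∧
      ∀ σ', σ' ≠ σ → (yy (g (aa k))).1 (pot σ') ≤ 1 / 2 + base σ := by
  have hp : ∀ i, |(yy (g (aa k))).1 i - mainF (1 / 2) i| ≤ ga k := by
    intro i
    have := man_pot hg h0 i le_rfl (aa_pos k).le
    rw [h0, beta_zero, sub_zero] at this
    have e : (yy y0).1 = mainF (1 / 2) := mainA_val (by norm_num) XX_bd.1
    rwa [e] at this
  have hH : ∀ j n, mainF (1 / 2) (.inl (j, n)) = 1 / 2 := fun j n => by
    have := lo_bd j
    have := be_bd j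
    have := aa_le j
    have := aa_pos j
    exact cl_of_mem (by linarith) (by linarith)
  have hGk : ∀ k, mainF (1 / 2) (.inr (.inr k)) = 1 / 2 := fun k => by
    have := ga_bd k
    have := aa_pos k
    exact cl_of_mem (by linarith) (by linarith)
  have a1 := al_bd k
  have a2 := ga_bd k
  have a3 := aa_le k
  have a4 := aa_pos k
  set y := yy (g (aa k)) with hy
  have hmain : ∀ x, 0 ≤ x → x ≤ XX → y.1 ≠ mainF x := by
    intro x hx0 hx1 e
    have ey : y = mainA x := Subtype.ext (by rw [e, mainA_val hx0 hx1])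
    have h1 := (le_abs_self _).trans (hp (.inl (0, 0)))
    rw [hH, e] at h1
    have h2 : x ≤ mainF x (.inl (0, 0)) := le_max_of_le_right (le_min le_rfl hx1)
    rcases eq_or_lt_of_le (show x ≤ 1 / 2 + ga k by linarith) with h | h
    · have r := (shortA_arc k).reach_up (a := 0) (b := len k) (by linarith [(len_bd k).1])
      rw [shortA_zero, shortA_len, ← h, ← ey] at r
      have := hno _ r
      unfold len ep at this
      linarith
    · rcases le_total (al k) x with h' | h'
      · have r := mainA_arc.reach_up h'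
        rw [← ey] at r
        linarith [hno _ r]
      · have r := mainA_arc.reach_down h'
        rw [← ey] at r
        linarith [hno _ r]
  rcases y.2 with (⟨x, hx, e⟩ | h) | h
  · exact absurd e.symm (hmain x hx.1 hx.2)
  · obtain ⟨k', u, hu, e⟩ := Set.mem_iUnion.1 h
    have b1 := al_bd k'
    have b2 := ga_bd k'
    have b3 := aa_le k'
    have b4 := aa_pos k'
    have b5 := len_bd k'
    have b6 := ga_be (Nat.zero_le k')
    have b7 := aa_pos 0
    have hlen : al k' + len k' + ep k' = 1 / 2 + ga k' := by unfold len; ring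
    have hep : 0 ≤ ep k' := by unfold ep; linarith
    have hlt : u < len k' := lt_of_le_of_ne hu.2 fun h => by
      refine hmain (1 / 2 + ga k') (by linarith) (by unfold XX; linarith) ?_
      rw [← e, h, short_len]
    have h1 := (neg_abs_le _).trans' (neg_le_neg (hp (.inl (0, 0))))
    rw [hH, ← e] at h1
    simp only [shortF, if_pos (Nat.zero_le k')] at h1
    have h2 := cl_le_max (lo 0) (1 / 2 + be 0) (al k' + u + ep k')
    have c1 := lo_bd 0
    have c2 := aa_le 0
    have h3 : 1 / 2 - ga k ≤ al k' + u + ep k' :=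
      (le_max_iff.1 (show 1 / 2 - ga k ≤ max (lo 0) (al k' + u + ep k') by linarith)).resolve_left
        (by linarith)
    have hval : y.1 (.inr (.inr k')) = 1 / 2 + ga k' + (len k' - u) := by
      rw [← e]
      simp only [shortF, if_true]
      rw [min_eq_left (by linarith)]
    have h4 := (le_abs_self _).trans (hp (.inr (.inr k')))
    rw [hGk, hval] at h4
    have r1 := mainA_arc.reach_up (a := al k) (b := 1 / 2 + ga k') (by linarith)
    have r2 := (shortA_arc k').reach_down hu.2
    have ey : shortA k' u = y := Subtype.ext (by rw [shortA_val hu.1 hu.2, e])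
    rw [shortA_len, ey] at r2
    have h5 := hno _ (r1.trans r2)
    refine ⟨.inr k', by simp only [base]; linarith, by simp only [pot]; linarith, ?_⟩
    rintro (j | k'') hne
    · rw [← e]
      simp only [pot, base, shortF]
      have := lo_bd j
      have := aa_le j
      refine (cl_le_max _ _ _).trans (max_le (by linarith) ?_)
      split_ifs <;> linarith
    · rw [← e]
      have hne' : k'' ≠ k' := fun h => hne (by rw [h])
      simp only [pot, base, shortF, if_neg hne']
      exact (cl_le_max _ _ _).trans (max_le (by linarith) (by linarith))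
  · obtain ⟨j, w, hw, e⟩ := Set.mem_iUnion.1 h
    have b1 := be_bd j
    have b2 := lo_bd j
    have b3 := aa_le j
    have b4 := aa_pos j
    have b5 := be_le_zero j
    have hlt : w < 1 := lt_of_le_of_ne hw.2 fun h => by
      refine hmain (1 / 2 + be j) (by linarith) (by unfold XX; linarith) ?_
      rw [← e, h, ray_one]
    have hval : y.1 (.inl (j, 1)) = 1 / 2 + be j + (tr 1 w - 1) := by
      rw [← e]
      simp only [rayF, if_true]
      rw [cl_of_mem (by linarith) le_rfl]
    have h4 := (le_abs_self _).trans (hp (.inl (j, 1)))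
    rw [hH, hval] at h4
    have hw0 : 0 < w := lt_of_le_of_ne hw.1 fun h => by
      rw [← h, tr_zero] at h4
      norm_num at h4
      linarith
    have htr : tr 1 w = 1 / w := by
      rw [tr_eq_min 1 hw0] at h4 ⊢
      rcases min_cases (1 / w) (((1 : ℕ) : ℝ) + 1) with h | h
      · exact h.1
      · rw [h.1] at h4
        norm_num at h4
        linarith
    have hz : 0 < 1 / w - 1 := by
      rw [sub_pos, lt_div_iff₀ hw0]; linarith
    have r1 := mainA_arc.reach_up (a := al k) (b := 1 / 2 + be j) (by linarith)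
    have r2 := (rayA_arc j).reach_up hz.le
    have ey : rayA j (1 / w - 1) = y := Subtype.ext (by
      rw [rayA_val hz.le, ← e]; congr 1; rw [add_sub_cancel, one_div_one_div])
    rw [rayA_zero, ey] at r2
    have h5 := hno _ (r1.trans r2)
    rw [htr] at hval h4
    refine ⟨.inl j, by simp only [base]; linarith, by simp only [pot]; linarith, ?_⟩
    rintro (j' | k') hne
    · rw [← e]
      have hne' : j' ≠ j := fun h => hne (by rw [h])
      simp only [pot, base, rayF, if_neg hne', add_zero]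
      have := lo_bd j'
      have := aa_le j'
      exact (cl_le_max _ _ _).trans (max_le (by linarith) le_rfl)
    · rw [← e]
      simp only [pot, base, rayF]
      exact (cl_le_max _ _ _).trans (max_le (by linarith) le_rfl)

lemma man_behind {g : ℝ → MM YY} (hg : Lip g) (h0 : g 0 = y0) :
    ∃ k L, Reach (mainA (al k)) (yy (g (aa k))) L ∧ L < 1 / 2 + ga k - al k := by
  by_contra hc
  push Not at hc
  obtain ⟨σ, -, h2, -⟩ := classify hg h0 0 (hc 0)
  obtain ⟨k, hk⟩ := aa_small (ε := base σ / 4) (by linarith [base_pos σ])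
  obtain ⟨σ', h1', -, h3'⟩ := classify hg h0 k (hc k)
  have a1 := ga_bd k
  have a2 := hk k le_rfl
  have a3 := base_pos σ
  have hne : σ ≠ σ' := fun h => by rw [← h] at h1'; linarith
  have h4 := h3' σ hne
  have h5 := (le_abs_self _).trans (man_pot hg h0 (pot σ) (aa_pos k).le (aa_anti (Nat.zero_le k)))
  rw [h2] at h5
  change _ ≤ ga 0 - ga k at h5
  linarith

theorem man_fails {G : (ℝ → MM YY) → (ℝ → MM YY)} (hG : Strat x0 y0 G) :
    ∃ f, Lip f ∧ f 0 = x0 ∧ ∃ t, 0 ≤ t ∧ G f t = f t := by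
  have := MM_compact YY_compact
  obtain ⟨hg, hg0⟩ := hG.lip _ fp_lip fp_zero
  obtain ⟨k, L, h1, h2⟩ := man_behind hg hg0
  have hk := aa_pos k
  refine chase hG (vv_mk_pos _ _) (vv_mk_pos _ _) fp_lip fp_zero (t := aa k) (m := 1 + aa k) (L := L)
    hk.le (by linarith) ?_ ?_ h1 ?_
  · unfold fp; rw [dep_mk _ (by linarith)]; ring
  · have := vert_lip hg (by rw [hg0]; exact vv_mk_pos _ _) le_rfl hk.le
    have e : dep y0 = 1 := dep_mk _ le_rfl
    rw [hg0, e] at this
    linarith [le_abs_self (dep (G fp (aa k)) - 1)]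
  · have := crit (aa k)
    rw [show 1 + aa k + 1 = 2 + aa k by ring, ← this]
    exact h2

open scoped NNReal

lemma lip_restrict {M : Type} [MetricSpace M] {p : ℝ → M} (hp : Lip p) :
    LipschitzWith 1 fun t : ℝ≥0 => p t := by
  refine LipschitzWith.of_dist_le_mul fun s t => ?_
  rw [NNReal.coe_one, one_mul, NNReal.dist_eq]
  rcases le_total (s : ℝ) t with h | h
  · rw [dist_comm, abs_sub_comm, abs_of_nonneg (sub_nonneg.2 h)]; exact hp s t s.2 h
  · rw [abs_of_nonneg (sub_nonneg.2 h)]; exact hp t s t.2 h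

lemma lip_extend {M : Type} [MetricSpace M] {f : ℝ≥0 → M} (hf : LipschitzWith 1 f) :
    Lip fun t : ℝ => f t.toNNReal := by
  intro s t hs hst
  have := hf.dist_le_mul t.toNNReal s.toNNReal
  rwa [NNReal.coe_one, one_mul, NNReal.dist_eq, Real.coe_toNNReal _ hs,
    Real.coe_toNNReal _ (hs.trans hst), abs_of_nonneg (sub_nonneg.2 hst)] at this

lemma strat_of {M : Type} [MetricSpace M] {a b : M} {F : (ℝ≥0 → M) → (ℝ≥0 → M)}
    (h1 : ∀ c : ℝ≥0 → M, LipschitzWith 1 c → c 0 = a → LipschitzWith 1 (F c) ∧ F c 0 = b)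
    (h2 : ∀ c c' : ℝ≥0 → M, LipschitzWith 1 c → c 0 = a → LipschitzWith 1 c' → c' 0 = a →
      ∀ t : ℝ≥0, (∀ s, s ≤ t → c s = c' s) → ∀ s, s ≤ t → F c s = F c' s) :
    Strat a b fun p t => F (fun s : ℝ≥0 => p s) t.toNNReal := by
  constructor
  · intro p hp h0
    obtain ⟨k1, k2⟩ := h1 _ (lip_restrict hp) h0
    exact ⟨lip_extend k1, by simpa using k2⟩
  · intro p p' hp h0 hp' h0' t h s hs hst
    refine h2 _ _ (lip_restrict hp) h0 (lip_restrict hp') h0' t.toNNReal (fun r hr => ?_) _
      (Real.toNNReal_le_toNNReal hst)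
    refine h r r.2 ?_
    have : (r : ℝ) ≤ t.toNNReal := hr
    rwa [Real.coe_toNNReal _ (hs.trans hst)] at this

end Pool.Agent.H86Z.Lion
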